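import Pool.Agent.R80.WF.XG
import Pool.Agent.R80.WF.X33
import Pool.Agent.R80.WF.Asm
import Pool.Agent.Y676.WP.OneTwo

/-!
# Dimensions one and two
-/

set_option autoImplicit false

namespace Pool.Agent.Zk47.WP

open Polynomial Pool.Agent.R80.WF

/-- `1 / p` is not an algebraic integer -/
theorem not_int_inv {p : ℕ} (hp : p.Prime) {w : ℂ} (hw : IsIntegral ℤ w) (h : (p : ℂ) * w = 1) :
    False := by
  have hp0 : (p : ℂ) ≠ 0 := by exact_mod_cast hp.ne_zero
  have hval : w = algebraMap ℚ ℂ (1 / (p : ℚ)) := by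
    rw [eq_ratCast]
    push_cast
    rw [eq_div_iff hp0, mul_comm]
    exact h
  rw [hval] at hw
  have hint2 : IsIntegral ℤ (1 / (p : ℚ)) :=
    (isIntegral_algebraMap_iff (algebraMap ℚ ℂ).injective).1 hw
  obtain ⟨z, hz⟩ := IsIntegrallyClosed.isIntegral_iff.1 hint2
  have hpQ : (p : ℚ) ≠ 0 := by exact_mod_cast hp.ne_zero
  have hz' : (z : ℚ) * p = 1 := by
    have : (z : ℚ) = 1 / (p : ℚ) := hz
    rw [this]; field_simp
  have hz'' : z * (p : ℤ) = 1 := by exact_mod_cast hz'
  have h2 := Int.eq_one_or_neg_one_of_mul_eq_one' hz''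
  have := hp.two_le
  omega

/-- the quadratic `p z ^ 2 + (2 p - 1) z - 1` has no integral root -/
theorem no_int_root {p : ℕ} (hp : p.Prime) {z : ℂ} (hz : IsIntegral ℤ z)
    (h : (p : ℂ) * z ^ 2 + (2 * p - 1) * z - 1 = 0) : False := by
  set F : ℤ[X] := C (p : ℤ) * X ^ 2 + C (2 * (p : ℤ) - 1) * X + C (-1) with hF
  have hp0 : (p : ℤ) ≠ 0 := by exact_mod_cast hp.ne_zero
  have hFz : aeval z F = 0 := by
    rw [hF]
    simp only [map_add, map_mul, map_pow, aeval_X, aeval_C]
    simp only [algebraMap_int_eq, eq_intCast]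
    push_cast
    linear_combination h
  have hFd : F.natDegree = 2 := natDegree_quadratic hp0
  have hFl : F.leadingCoeff = p := leadingCoeff_quadratic hp0
  obtain ⟨q, hq⟩ := minpoly.isIntegrallyClosed_dvd hz hFz
  have hm := minpoly.monic hz
  have hF0 : F ≠ 0 := by
    intro h0
    rw [h0] at hFd
    simp at hFd
  have hq0 : q ≠ 0 := by
    rintro rfl
    rw [mul_zero] at hq
    exact hF0 hq
  have hdeg : (minpoly ℤ z).natDegree + q.natDegree = 2 := by
    rw [← hFd, hq, natDegree_mul hm.ne_zero hq0]
  have hlc : q.leadingCoeff = p := by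
    rw [← hFl, hq, leadingCoeff_mul, hm.leadingCoeff, one_mul]
  have hpos : 0 < (minpoly ℤ z).natDegree := minpoly.natDegree_pos hz
  have hc0 : (minpoly ℤ z).coeff 0 * q.coeff 0 = -1 := by
    rw [← mul_coeff_zero, ← hq, hF]
    simp
  by_cases h2 : (minpoly ℤ z).natDegree = 2
  · have hqd : q.natDegree = 0 := by omega
    have : q.coeff 0 = p := by rw [← hlc, leadingCoeff, hqd]
    rw [this] at hc0
    have h3 := Int.eq_one_or_neg_one_of_mul_eq_neg_one' hc0
    have := hp.two_le
    omega
  · have h1 : (minpoly ℤ z).natDegree = 1 := by omega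
    have h4 := hm.as_sum
    rw [h1] at h4
    simp only [Finset.range_one, Finset.sum_singleton, pow_zero, mul_one, pow_one] at h4
    have h5 : z + ((minpoly ℤ z).coeff 0 : ℂ) = 0 := by
      have := minpoly.aeval ℤ z
      rw [h4] at this
      simpa using this
    obtain ⟨b, hb⟩ : ∃ b : ℤ, z = b := ⟨-(minpoly ℤ z).coeff 0, by
      push_cast
      linear_combination h5⟩
    rw [hb] at h
    have h6 : (p : ℤ) * b ^ 2 + (2 * p - 1) * b - 1 = 0 := by exact_mod_cast h
    have h7 : b * (p * b + (2 * p - 1)) = 1 := by linear_combination h6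
    have hp2 := hp.two_le
    rcases Int.eq_one_or_neg_one_of_mul_eq_one' h7 with ⟨rfl, h8⟩ | ⟨rfl, h8⟩
    · omega
    · omega

theorem int_of_root_of_unity {ζ : ℂ} {n : ℕ} (hn : 1 ≤ n) (h : ζ ^ n = 1) : IsIntegral ℤ ζ := by
  refine ⟨X ^ n - 1, monic_X_pow_sub_C 1 (by omega), ?_⟩
  simp [h]

/-- `(p, 1, 1)` -/
theorem good_1_1 {p : ℕ} (hp : p.Prime) : Good p 1 1 := by
  set P : ℤ[X] := X ^ 2 + (X + C (p : ℤ)) with hP
  have hlt : (X + C (p : ℤ)).degree < (X ^ 2 : ℤ[X]).degree := by
    rw [degree_X_add_C, degree_X_pow]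
    norm_num
  have hm : P.Monic := (monic_X_pow 2).add_of_left hlt
  have hd : P.natDegree = 2 * 1 := by
    rw [hP, natDegree_add_eq_left_of_degree_lt hlt, natDegree_X_pow]
  have hpC : (p : ℂ) ≠ 0 := by exact_mod_cast hp.ne_zero
  have hp2 := hp.two_le
  have hPv : ∀ x : ℂ, aeval x P = x ^ 2 + (x + p) := by
    intro x
    simp [hP]
  have hne : ∀ x : ℂ, aeval x P = 0 → x ≠ 0 := by
    rintro x hx rfl
    rw [hPv] at hx
    simp at hx
    exact hp.ne_zero hx
  have hhm : (X + C 1 : ℤ[X]).Monic := monic_X_add_C 1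
  have hhd : (X + C 1 : ℤ[X]).natDegree = 1 := natDegree_X_add_C 1
  have hrel : ∀ x x' : ℂ, x * x' = p → aeval x P = x ^ 1 * aeval (x + x') (X + C 1 : ℤ[X]) := by
    intro x x' h
    rw [hPv]
    simp only [map_add, aeval_X, map_one]
    linear_combination -h
  have hroot : ∀ x : ℂ, aeval x P = 0 → ‖x‖ = Real.sqrt p := by
    intro x hx
    have hx0 := hne x hx
    have hxx : x * (p / x) = p := by field_simp
    refine xg_norm_of_roots hp.pos hhm hhd {(-1 : ℝ)} (by simp) ?_ ?_ x (p / x) hxx ?_
    · intro s hs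
      rw [Finset.mem_singleton] at hs
      subst hs
      simp
    · intro s hs
      rw [Finset.mem_singleton] at hs
      subst hs
      have : (1 : ℝ) ≤ p := by exact_mod_cast hp.one_lt.le
      norm_num
      linarith
    · rw [hrel x _ hxx] at hx
      exact (mul_eq_zero.1 hx).resolve_left (pow_ne_zero _ hx0)
  have hirr : Irreducible (P.map (Int.castRingHom ℚ)) := by
    refine Y676.WP.irreducible_of_real2 hp le_rfl hm hd hhm hhd ?_ hrel ?_ hroot
    · exact hhm.irreducible_of_degree_eq_one (by
        rw [degree_eq_natDegree hhm.ne_zero, hhd]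
        rfl)
    · intro x hx hx2
      rw [hPv, hx2] at hx
      have h1 : x = -2 * p := by linear_combination hx
      rw [h1] at hx2
      have h2 : (p : ℂ) * (4 * p - 1) = 0 := by linear_combination hx2
      have h3 := (mul_eq_zero.1 h2).resolve_left hpC
      have h4 : (4 * (p : ℤ) - 1) = 0 := by exact_mod_cast h3
      omega
  refine ⟨P, hm, hd, hirr, hroot, ?_, ?_, ?_⟩
  · intro i hi
    have : i = 0 := by omega
    subst this
    simp [hP]
  · have : (2 * 1 - 1 : ℕ) = 1 := rfl
    rw [this]
    have h1 : P.coeff 1 = 1 := by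
      rw [hP, coeff_add, coeff_X_pow, coeff_add, coeff_X_one, coeff_C]
      norm_num
    rw [h1]
    intro h
    have := Int.eq_one_of_dvd_one (by positivity) h
    omega
  · intro x hx n hn
    refine X33aux.adjoin_pow_eq hm ?_ hx hn
    intro x y hx hy n hn hxy
    by_contra hcon
    have hx0 := hne x hx
    have hy0 := hne y hy
    rw [hPv] at hx hy
    have h1 : (x - y) * (x + y + 1) = 0 := by linear_combination hx - hy
    have h2 : x + y + 1 = 0 := (mul_eq_zero.1 h1).resolve_left (sub_ne_zero.2 hcon)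
    have h3 : x * y = p := by linear_combination -hx + x * h2
    have hz1 : IsIntegral ℤ (y / x) := int_of_root_of_unity hn (by
      rw [div_pow, hxy, div_self (pow_ne_zero _ hy0)])
    have hz2 : IsIntegral ℤ (x / y) := int_of_root_of_unity hn (by
      rw [div_pow, hxy, div_self (pow_ne_zero _ hy0)])
    refine not_int_inv hp (w := y / x + x / y + 2) ((hz1.add hz2).add ?_) ?_
    · have := isIntegral_algebraMap (R := ℤ) (A := ℂ) (x := (2 : ℤ))
      simpa using this
    · rw [← h3]
      field_simp
      linear_combination (x + y - 1) * h2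

/-- `(p, 2, 2)` -/
theorem good_2_2 {p : ℕ} (hp : p.Prime) : Good p 2 2 := by
  set Q : ℤ[X] := X ^ 3 + (X ^ 2 + (C (p : ℤ) * X + C ((p : ℤ) ^ 2))) with hQ
  set P : ℤ[X] := X ^ 4 + Q with hP
  have hQd : Q.degree ≤ 3 := by
    rw [hQ]
    refine (degree_add_le _ _).trans (max_le (by rw [degree_X_pow]; norm_num) ?_)
    refine (degree_add_le _ _).trans (max_le (by rw [degree_X_pow]; norm_num) ?_)
    refine (degree_add_le _ _).trans (max_le ?_ ?_)
    · refine (degree_C_mul_X_le _).trans (by norm_num)
    · refine degree_C_le.trans (by norm_num)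
  have hlt : Q.degree < (X ^ 4 : ℤ[X]).degree := by
    rw [degree_X_pow]
    exact lt_of_le_of_lt hQd (by norm_num)
  have hm : P.Monic := (monic_X_pow 4).add_of_left hlt
  have hd : P.natDegree = 2 * 2 := by
    rw [hP, natDegree_add_eq_left_of_degree_lt hlt, natDegree_X_pow]
  have hpC : (p : ℂ) ≠ 0 := by exact_mod_cast hp.ne_zero
  have hp2 := hp.two_le
  have hPv : ∀ x : ℂ, aeval x P = x ^ 4 + (x ^ 3 + (x ^ 2 + (p * x + p ^ 2))) := by
    intro x
    simp [hP, hQ]
  have hne : ∀ x : ℂ, aeval x P = 0 → x ≠ 0 := by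
    rintro x hx rfl
    rw [hPv] at hx
    simp at hx
    exact hp.ne_zero hx
  set h : ℤ[X] := X ^ 2 + (X + C (1 - 2 * (p : ℤ))) with hh
  have hlt2 : (X + C (1 - 2 * (p : ℤ))).degree < (X ^ 2 : ℤ[X]).degree := by
    rw [degree_X_add_C, degree_X_pow]
    norm_num
  have hhm : h.Monic := (monic_X_pow 2).add_of_left hlt2
  have hhd : h.natDegree = 2 := by
    rw [hh, natDegree_add_eq_left_of_degree_lt hlt2, natDegree_X_pow]
  have hrel : ∀ x x' : ℂ, x * x' = p → aeval x P = x ^ 2 * aeval (x + x') h := by
    intro x x' hxx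
    rw [hPv, hh]
    simp only [map_add, map_pow, aeval_X, aeval_C]
    simp only [algebraMap_int_eq, eq_intCast]
    push_cast
    rw [← hxx]
    ring
  have hp1 : (1 : ℝ) ≤ p := by exact_mod_cast hp.one_lt.le
  have hs0 : (0 : ℝ) ≤ 8 * p - 3 := by linarith
  have hsq := Real.sq_sqrt hs0
  set r := Real.sqrt (8 * p - 3) with hr
  have hr0 : 0 ≤ r := Real.sqrt_nonneg _
  have hrpos : 0 < r := Real.sqrt_pos.2 (by linarith)
  have hroot : ∀ x : ℂ, aeval x P = 0 → ‖x‖ = Real.sqrt p := by
    intro x hx
    have hx0 := hne x hx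
    have hxx : x * (p / x) = p := by field_simp
    refine xg_norm_of_roots hp.pos hhm hhd {(-1 + r) / 2, (-1 - r) / 2} ?_ ?_ ?_ x (p / x) hxx ?_
    · rw [Finset.card_pair]
      intro h
      linarith
    · intro s hs
      rw [Finset.mem_insert, Finset.mem_singleton] at hs
      rw [hh]
      simp only [map_add, map_pow, aeval_X, aeval_C]
      simp only [algebraMap_int_eq, eq_intCast]
      push_cast
      rcases hs with rfl | rfl
      · linear_combination (1 / 4) * hsq
      · linear_combination (1 / 4) * hsq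
    · intro s hs
      rw [Finset.mem_insert, Finset.mem_singleton] at hs
      have h1 : (1 + r) ^ 2 ≤ 16 * p := by
        by_contra hcon
        push Not at hcon
        nlinarith [sq_nonneg (r - 2), sq_nonneg (r - 1)]
      rcases hs with rfl | rfl
      · nlinarith
      · nlinarith
    · rw [hrel x _ hxx] at hx
      exact (mul_eq_zero.1 hx).resolve_left (pow_ne_zero _ hx0)
  have hirr : Irreducible (P.map (Int.castRingHom ℚ)) := by
    refine Y676.WP.irreducible_of_real2 hp (by norm_num) hm hd hhm hhd ?_ hrel ?_ hroot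
    · rw [hhm.irreducible_iff_natDegree']
      refine ⟨?_, ?_⟩
      · intro h1
        rw [h1] at hhd
        simp at hhd
      · intro f g hf hg hfg hmem
        rw [Finset.mem_Ioc, hhd] at hmem
        have hgd : g.natDegree = 1 := by omega
        have h4 := hg.as_sum
        rw [hgd] at h4
        simp only [Finset.range_one, Finset.sum_singleton, pow_zero, mul_one, pow_one] at h4
        have h5 := congrArg (eval (-(g.coeff 0))) hfg
        rw [eval_mul, h4, hh] at h5
        simp only [eval_add, eval_X, eval_C, eval_pow, coeff_add, coeff_X_zero, coeff_C_zero,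
          zero_add, neg_add_cancel, mul_zero] at h5
        generalize g.coeff 0 = c at h5
        have h6 : Even (c * (c - 1)) := Int.even_mul_pred_self c
        obtain ⟨k, hk⟩ := h6
        have h7 : c * (c - 1) = 2 * (p : ℤ) - 1 := by linear_combination -h5
        omega
    · intro x hx hx2
      rw [hPv] at hx
      have h1 : (p : ℂ) * (2 * p + 1 + 2 * x) = 0 := by
        linear_combination hx - (x ^ 2 + p + x + 1) * hx2
      have h2 := (mul_eq_zero.1 h1).resolve_left hpC
      have h3 : 4 * (p : ℂ) ^ 2 + 1 = 0 := by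
        linear_combination (2 * p + 1 - 2 * x) * h2 + 4 * hx2
      have h4 : (4 * (p : ℤ) ^ 2 + 1) = 0 := by exact_mod_cast h3
      nlinarith
  refine ⟨P, hm, hd, hirr, hroot, ?_, ?_, ?_⟩
  · intro i hi
    have : i = 0 ∨ i = 1 := by omega
    rcases this with rfl | rfl
    · have : P.coeff 0 = (p : ℤ) ^ 2 := by
        simp only [hP, hQ, coeff_add, coeff_X_pow, coeff_C_mul, coeff_X, coeff_C]
        norm_num
      rw [this]
      exact dvd_pow_self _ (by norm_num)
    · have : P.coeff 1 = (p : ℤ) := by
        simp only [hP, hQ, coeff_add, coeff_X_pow, coeff_C_mul, coeff_X, coeff_C]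
        norm_num
      rw [this]
  · have : (2 * 2 - 2 : ℕ) = 2 := rfl
    rw [this]
    have h1 : P.coeff 2 = 1 := by
      simp only [hP, hQ, coeff_add, coeff_X_pow, coeff_C_mul, coeff_X, coeff_C]
      norm_num
    rw [h1]
    intro h
    have := Int.eq_one_of_dvd_one (by positivity) h
    omega
  · intro x hx n hn
    refine X33aux.adjoin_pow_eq hm ?_ hx hn
    intro x y hx hy n hn hxy
    by_contra hcon
    have hx0 := hne x hx
    have hy0 := hne y hy
    obtain ⟨x', hxx⟩ : ∃ x' : ℂ, x * x' = p := ⟨p / x, by field_simp⟩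
    obtain ⟨y', hyy⟩ : ∃ y' : ℂ, y * y' = p := ⟨p / y, by field_simp⟩
    have hx' : x' = p / x := by rw [← hxx]; field_simp
    have hy' : y' = p / y := by rw [← hyy]; field_simp
    have hz1 : IsIntegral ℤ (y / x) := int_of_root_of_unity hn (by
      rw [div_pow, hxy, div_self (pow_ne_zero _ hy0)])
    have hz2 : IsIntegral ℤ (x / y) := int_of_root_of_unity hn (by
      rw [div_pow, hxy, div_self (pow_ne_zero _ hy0)])
    have hz := hz1.add hz2
    set z := y / x + x / y with hzd
    have hzv : (p : ℂ) * z = y * x' + x * y' := by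
      rw [hx', hy', hzd]
      ring
    have ht := (mul_eq_zero.1 ((hrel x x' hxx).symm.trans hx)).resolve_left (pow_ne_zero _ hx0)
    have hs := (mul_eq_zero.1 ((hrel y y' hyy).symm.trans hy)).resolve_left (pow_ne_zero _ hy0)
    rw [hh] at ht hs
    simp only [map_add, map_pow, aeval_X, aeval_C] at ht hs
    simp only [algebraMap_int_eq, eq_intCast] at ht hs
    push_cast at ht hs
    have h1 : (x + x' - (y + y')) * (x + x' + (y + y') + 1) = 0 := by linear_combination ht - hs
    rcases mul_eq_zero.1 h1 with h2 | h2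
    · -- the same real part
      have h3 : (y - x) * (y - x') = 0 := by
        linear_combination (-y) * h2 + hxx - hyy
      have h4 : y = x' := sub_eq_zero.1 ((mul_eq_zero.1 h3).resolve_left (sub_ne_zero.2 (Ne.symm hcon)))
      have h5 : y' = x := by
        rw [h4] at hyy
        have : x' * (y' - x) = 0 := by linear_combination hyy - hxx
        have hx'0 : x' ≠ 0 := by rw [← h4]; exact hy0
        exact sub_eq_zero.1 ((mul_eq_zero.1 this).resolve_left hx'0)
      rw [h4, h5] at hzv
      have h6 : (p : ℂ) * (p * (p * z ^ 2 + z - 2)) = p * (-1) := by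
        have e1 : x + x' = -1 - p * z := by
          linear_combination ht + hzv - 2 * hxx
        rw [e1] at ht
        linear_combination p * ht
      have h7 := mul_left_cancel₀ hpC h6
      have hpi : IsIntegral ℤ (p : ℂ) := by
        have := isIntegral_algebraMap (R := ℤ) (A := ℂ) (x := (p : ℤ))
        simpa using this
      have h2i : IsIntegral ℤ (2 : ℂ) := by
        have := isIntegral_algebraMap (R := ℤ) (A := ℂ) (x := (2 : ℤ))
        simpa using this
      exact not_int_inv hp (w := -(p * z ^ 2 + z - 2))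
        (((hpi.mul (hz.pow 2)).add hz).sub h2i).neg (by linear_combination -h7)
    · refine no_int_root hp hz ?_
      set u := y * x' + x * y' with hu
      set v := x * y + x' * y' with hv
      have huv : u + v = 1 - 2 * p := by
        have : u + v = (x + x') * (y + y') := by rw [hu, hv]; ring
        rw [this]
        linear_combination (x + x') * h2 - ht
      have hprod : u * v = -p := by
        have e1 : u * v = x * x' * (y ^ 2 + y' ^ 2) + y * y' * (x ^ 2 + x' ^ 2) := by
          rw [hu, hv]; ring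
        have e2 : y ^ 2 + y' ^ 2 = -(y + y') - 1 := by linear_combination hs - 2 * hyy
        have e3 : x ^ 2 + x' ^ 2 = -(x + x') - 1 := by linear_combination ht - 2 * hxx
        rw [e1, e2, e3, hxx, hyy]
        linear_combination (-(p : ℂ)) * h2
      have h3 : (p : ℂ) * (p * z ^ 2 + (2 * p - 1) * z - 1) = 0 := by
        have e1 : u * (1 - 2 * p - u) = -p := by
          rw [← hprod, ← huv]; ring
        rw [← hzv] at e1
        linear_combination -e1
      exact (mul_eq_zero.1 h3).resolve_left hpC

end Pool.Agent.Zk47.WP
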