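import Pool.Agent.Zk47.WP.Small
import Pool.Agent.Zk47.WP.G2

/-!
# All pairs `(g, f)` with `3 ≤ g ≤ 6` for `p = 2`
-/

set_option autoImplicit false

namespace Pool.Agent.Zk47.WP

open Polynomial Pool.Agent.R80.WF

theorem small {g f : ℕ} (hg : 3 ≤ g) (hg6 : g ≤ 6) (hf : 2 ≤ f) (hfg : f ≤ g) : Good 2 g f := by
  interval_cases g
  · interval_cases f
    · exact good_3_2
    · exact good_3_3
  · interval_cases f
    · exact good_4_2
    · exact good_4_3
    · exact good_4_4
  · interval_cases f
    · exact good_5_2
    · exact good_5_3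
    · exact good_5_4
    · exact good_5_5
  · interval_cases f
    · exact good_6_2
    · exact good_6_3
    · exact good_6_4
    · exact good_6_5
    · exact good_6_6

end Pool.Agent.Zk47.WP
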