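import Mathlib

/-!
# Irreducibility by the prime three
-/

set_option autoImplicit false

namespace Pool.Agent.Zk47.WP

open Polynomial

theorem eval_eq_prod (Q : ℤ[X]) (hQ : Q.Monic) (t : ℤ) :
    ((Q.eval t : ℤ) : ℂ) =
      ((Q.map (Int.castRingHom ℂ)).roots.map fun y => (t : ℂ) - y).prod := by
  have hsp : (Q.map (Int.castRingHom ℂ)).Splits := IsAlgClosed.splits _
  rw [← hsp.eval_eq_prod_roots_of_monic (hQ.map _)]
  have : (t : ℂ) = Int.castRingHom ℂ t := rfl
  rw [this, eval_map, eval₂_hom]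
  rfl

/-- the functional equation at one -/
theorem fun_eq (Q : ℤ[X]) (hQ : Q.Monic) (hr : ∀ x : ℂ, aeval x Q = 0 → ‖x‖ ^ 2 = 2) :
    Q.eval 1 * Q.eval 0 = Q.eval 2 := by
  have e1 := eval_eq_prod Q hQ 1
  have e0 := eval_eq_prod Q hQ 0
  have e2 := eval_eq_prod Q hQ 2
  have hs : ∀ y ∈ (Q.map (Int.castRingHom ℂ)).roots, (starRingEnd ℂ) y * y = 2 := by
    intro y hy
    have hm : (Q.map (Int.castRingHom ℂ)) ≠ 0 := (hQ.map _).ne_zero
    rw [mem_roots hm, IsRoot.def, eval_map] at hy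
    have h1 : aeval y Q = 0 := hy
    have h2 := hr y h1
    rw [mul_comm, Complex.mul_conj, Complex.normSq_eq_norm_sq, h2]
    norm_num
  have e1' : ((Q.eval 1 : ℤ) : ℂ) =
      ((Q.map (Int.castRingHom ℂ)).roots.map fun y => (1 : ℂ) - (starRingEnd ℂ) y).prod := by
    have h := congrArg (starRingEnd ℂ) e1
    rw [map_multiset_prod, Multiset.map_map] at h
    simpa using h
  have key : ((Q.eval 1 * Q.eval 0 : ℤ) : ℂ) = ((Q.eval 2 : ℤ) : ℂ) := by
    rw [Int.cast_mul, e1', e0, e2, ← Multiset.prod_map_mul]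
    refine congrArg Multiset.prod (Multiset.map_congr rfl fun y hy => ?_)
    have := hs y hy
    push_cast
    linear_combination this
  exact_mod_cast key

theorem three_dvd_of_zmod {n : ℤ} (h : (n : ZMod 3) = 0) : (3 : ℤ) ∣ n := by
  have := (ZMod.intCast_zmod_eq_zero_iff_dvd n 3).1 h
  exact_mod_cast this

theorem eval_zmod (Q : ℤ[X]) (t : ℤ) :
    (Q.map (Int.castRingHom (ZMod 3))).eval (t : ZMod 3) = ((Q.eval t : ℤ) : ZMod 3) := by
  have : (t : ZMod 3) = Int.castRingHom (ZMod 3) t := rfl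
  rw [this, eval_map, eval₂_hom]
  rfl

/-- a factor of positive degree is divisible by three at one -/
theorem factor_three {P : ℤ[X]} {g : ℕ}
    (hmod : P.map (Int.castRingHom (ZMod 3)) = (X ^ 2 - 1) ^ g) (h0 : ¬ (3 : ℤ) ∣ P.eval 0)
    (hr : ∀ x : ℂ, aeval x P = 0 → ‖x‖ ^ 2 = 2) {Q : ℤ[X]} (hQ : Q.Monic)
    (hd : 0 < Q.natDegree) (hdvd : Q ∣ P) : (3 : ℤ) ∣ Q.eval 1 := by
  have : Fact (Nat.Prime 3) := ⟨Nat.prime_three⟩
  have hrQ : ∀ x : ℂ, aeval x Q = 0 → ‖x‖ ^ 2 = 2 := by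
    intro x hx
    obtain ⟨R, hR⟩ := hdvd
    exact hr x (by rw [hR, map_mul, hx, zero_mul])
  have hfe := fun_eq Q hQ hrQ
  have hQ0 : ¬ (3 : ℤ) ∣ Q.eval 0 := by
    intro h
    obtain ⟨R, hR⟩ := hdvd
    exact h0 (by rw [hR, eval_mul]; exact dvd_mul_of_dvd_left h _)
  have hQd : Q.map (Int.castRingHom (ZMod 3)) ∣ (X ^ 2 - 1) ^ g := by
    rw [← hmod]
    exact Polynomial.map_dvd _ hdvd
  by_contra hcon
  have c1 : ¬ (Q.map (Int.castRingHom (ZMod 3))).IsRoot 1 := by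
    intro h
    apply hcon
    apply three_dvd_of_zmod
    rw [← eval_zmod]
    simpa using h
  have c2 : ¬ (Q.map (Int.castRingHom (ZMod 3))).IsRoot (-1) := by
    intro h
    apply hcon
    have h1 : (3 : ℤ) ∣ Q.eval (-1) := by
      apply three_dvd_of_zmod
      rw [← eval_zmod]
      simpa using h
    have h2 : (3 : ℤ) ∣ Q.eval 2 := by
      have h3 := Polynomial.sub_dvd_eval_sub (2 : ℤ) (-1) Q
      have h4 : (3 : ℤ) ∣ Q.eval 2 - Q.eval (-1) := by
        have h5 : (2 : ℤ) - (-1) = 3 := by norm_num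
        rwa [h5] at h3
      have := dvd_add h4 h1
      simpa using this
    rw [← hfe] at h2
    exact (Int.prime_three.dvd_or_dvd h2).resolve_right hQ0
  have k1 : IsCoprime (Q.map (Int.castRingHom (ZMod 3))) (X - C 1) := by
    rw [isCoprime_comm, (irreducible_X_sub_C (1 : ZMod 3)).coprime_iff_not_dvd,
      dvd_iff_isRoot]
    exact c1
  have k2 : IsCoprime (Q.map (Int.castRingHom (ZMod 3))) (X - C (-1)) := by
    rw [isCoprime_comm, (irreducible_X_sub_C (-1 : ZMod 3)).coprime_iff_not_dvd,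
      dvd_iff_isRoot]
    exact c2
  have k3 : IsCoprime (Q.map (Int.castRingHom (ZMod 3))) ((X ^ 2 - 1) ^ g) := by
    apply IsCoprime.pow_right
    have : (X ^ 2 - 1 : (ZMod 3)[X]) = (X - C 1) * (X - C (-1)) := by
      rw [C_neg, C_1]
      ring
    rw [this]
    exact k1.mul_right k2
  have k4 : IsUnit (Q.map (Int.castRingHom (ZMod 3))) := by
    have := k3.isUnit_of_dvd' (dvd_refl _) hQd
    exact this
  have k5 := natDegree_eq_zero_of_isUnit k4
  rw [hQ.natDegree_map] at k5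
  omega

/-- **Irreducibility.** -/
theorem irr3 {P : ℤ[X]} {g : ℕ} (hP : P.Monic) (hg : 0 < P.natDegree)
    (hmod : P.map (Int.castRingHom (ZMod 3)) = (X ^ 2 - 1) ^ g) (h0 : ¬ (3 : ℤ) ∣ P.eval 0)
    (h1 : ¬ (9 : ℤ) ∣ P.eval 1) (hr : ∀ x : ℂ, aeval x P = 0 → ‖x‖ ^ 2 = 2) :
    Irreducible (P.map (Int.castRingHom ℚ)) := by
  have hirr : Irreducible P := by
    rw [hP.irreducible_iff_natDegree']
    refine ⟨fun h => ?_, fun f h hf hh hfh hmem => ?_⟩
    · rw [h, natDegree_one] at hg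
      omega
    · rw [Finset.mem_Ioc] at hmem
      obtain ⟨hm1, hm2⟩ := hmem
      have hdeg : f.natDegree + h.natDegree = P.natDegree := by
        rw [← hfh, hf.natDegree_mul hh]
      have d1 := factor_three hmod h0 hr hf (by omega) ⟨h, hfh.symm⟩
      have d2 := factor_three hmod h0 hr hh hm1 ⟨f, by rw [mul_comm]; exact hfh.symm⟩
      apply h1
      rw [← hfh, eval_mul]
      exact mul_dvd_mul d1 d2
  exact (Polynomial.IsPrimitive.Int.irreducible_iff_irreducible_map_cast hP.isPrimitive).1 hirr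

end Pool.Agent.Zk47.WP
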