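import Pool.Agent.Zk47.WP.Nd

/-!
# `ℚ(x^n) = ℚ(x)`, the main lemma
-/

set_option autoImplicit false

namespace Pool.Agent.Zk47.WP

open Polynomial IntermediateField

theorem cube_one {K : IntermediateField ℚ ℂ} (hω : ∀ s ∈ K, s ^ 2 + s + 1 ≠ 0) (t : ℕ) :
    ∀ u ∈ K, u ^ 3 ^ t = 1 → u = 1 := by
  induction t with
  | zero =>
    intro u _ h
    simpa using h
  | succ t ih =>
    intro u hu h
    apply ih u hu
    have hv : (u ^ 3 ^ t) ^ 3 = 1 := by rw [← pow_mul, ← pow_succ]; exact h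
    have hvK : u ^ 3 ^ t ∈ K := pow_mem hu _
    have h1 := hω _ hvK
    have h2 : (u ^ 3 ^ t - 1) * ((u ^ 3 ^ t) ^ 2 + u ^ 3 ^ t + 1) = 0 := by
      linear_combination hv
    exact sub_eq_zero.1 ((mul_eq_zero.1 h2).resolve_right h1)

theorem zeta_pm {K : IntermediateField ℚ ℂ} (hω : ∀ s ∈ K, s ^ 2 + s + 1 ≠ 0) {t : ℕ} {ζ : ℂ}
    (hK : ζ ∈ K) (h : ζ ^ (2 * 3 ^ t) = 1) : ζ = 1 ∨ ζ = -1 := by
  have h1 : ζ ^ 2 = 1 := by
    refine cube_one hω t _ (pow_mem hK 2) ?_
    rw [← pow_mul]; exact h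
  exact sq_eq_sq_iff_eq_or_eq_neg.1 (h1.trans (one_pow 2).symm)

theorem prod_div (s : Multiset ℂ) {x : ℂ} (hx : x ≠ 0) :
    (s.map fun y => y / x).prod * x ^ s.card = s.prod := by
  induction s using Multiset.induction_on with
  | empty => simp
  | cons b s ih =>
    rw [Multiset.map_cons, Multiset.prod_cons, Multiset.prod_cons, Multiset.card_cons, ← ih,
      pow_succ]
    field_simp

theorem prod_pow_one (s : Multiset ℂ) (f : ℂ → ℂ) (k : ℕ) (h : ∀ y ∈ s, f y ^ k = 1) :
    (s.map f).prod ^ k = 1 := by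
  induction s using Multiset.induction_on with
  | empty => simp
  | cons b s ih =>
    rw [Multiset.map_cons, Multiset.prod_cons, mul_pow, h b (Multiset.mem_cons_self b s), one_mul]
    exact ih fun y hy => h y (Multiset.mem_cons_of_mem hy)

theorem nd3 {P : ℤ[X]} {g : ℕ} (hPm : P.Monic)
    (hmod : P.map (Int.castRingHom (ZMod 3)) = (X ^ 2 - 1) ^ g)
    (hirr : Irreducible (P.map (Int.castRingHom ℚ))) {x : ℂ} (hx : aeval x P = 0) (hx0 : x ≠ 0)
    (hω : ∀ s ∈ adjoin ℚ {x}, s ^ 2 + s + 1 ≠ 0)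
    (hexp : ∀ d, 2 ≤ d → ∃ j, ¬ d ∣ j ∧ P.coeff j ≠ 0) (n : ℕ) (hn : 1 ≤ n) :
    adjoin ℚ {x ^ n} = adjoin ℚ {x} := by
  obtain ⟨t, ht⟩ : ∃ t : ℕ, g ≤ 3 ^ t := ⟨g, (Nat.lt_pow_self (by norm_num)).le⟩
  have hxi : IsIntegral ℤ x := ⟨P, hPm, hx⟩
  have hle : adjoin ℚ {x ^ n} ≤ adjoin ℚ {x} := by
    rw [adjoin_simple_le_iff]
    exact pow_mem (mem_adjoin_simple_self ℚ x) _
  refine le_antisymm hle ?_
  rw [adjoin_simple_le_iff]
  set L := adjoin ℚ {x ^ n} with hL
  have hxnL : x ^ n ∈ L := mem_adjoin_simple_self ℚ (x ^ n)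
  have hxL : IsIntegral L x := hxi.tower_top
  have hMm : (minpoly L x).Monic := minpoly.monic hxL
  set s := ((minpoly L x).map (algebraMap L ℂ)).roots with hs
  have hsp : ((minpoly L x).map (algebraMap L ℂ)).Splits := IsAlgClosed.splits _
  have hcard : s.card = (minpoly L x).natDegree := by
    rw [hs, ← hsp.natDegree_eq_card_roots, hMm.natDegree_map]
  have hroot : ∀ y ∈ s, (y / x) ^ (2 * 3 ^ t) = 1 := by
    intro y hy
    rw [hs, mem_roots (hMm.map _).ne_zero, IsRoot.def, eval_map] at hy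
    have hy' : aeval y (minpoly L x) = 0 := hy
    have hyP : aeval y P = 0 := by
      have hd : minpoly L x ∣ P.map (algebraMap ℤ L) := by
        refine minpoly.dvd _ _ ?_
        rw [aeval_map_algebraMap]; exact hx
      obtain ⟨q, hq⟩ := hd
      have h2 := congrArg (aeval y) hq
      rw [map_mul, hy', zero_mul, aeval_map_algebraMap] at h2
      exact h2
    have hyn : y ^ n = x ^ n := by
      have hd : minpoly L x ∣ X ^ n - C (⟨x ^ n, hxnL⟩ : L) := by
        refine minpoly.dvd _ _ ?_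
        simp
      obtain ⟨q, hq⟩ := hd
      have h2 := congrArg (aeval y) hq
      rw [map_mul, hy', zero_mul] at h2
      simp only [map_sub, map_pow, aeval_X, aeval_C] at h2
      have h3 : (algebraMap L ℂ) (⟨x ^ n, hxnL⟩ : L) = x ^ n := rfl
      rw [h3, sub_eq_zero] at h2
      exact h2
    exact conj_pow P g t hPm ht hmod x y hx hyP hx0 n hn hyn
  set ζ := (s.map fun y => y / x).prod with hζ
  have hζ1 : ζ ^ (2 * 3 ^ t) = 1 := prod_pow_one s _ _ hroot
  have hprod : ζ * x ^ (minpoly L x).natDegree = s.prod := by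
    rw [← hcard]
    exact prod_div s hx0
  have hsL : s.prod ∈ L := by
    have h1 := hsp.coeff_zero_eq_prod_roots_of_monic (hMm.map _)
    rw [coeff_map, hMm.natDegree_map] at h1
    have h2 : s.prod = (-1) ^ (minpoly L x).natDegree *
        (algebraMap L ℂ ((minpoly L x).coeff 0)) := by
      rw [h1, ← mul_assoc, ← mul_pow]
      simp [hs]
    rw [h2]
    exact mul_mem (pow_mem (neg_mem (one_mem L)) _) (SetLike.coe_mem _)
  have hxd0 : x ^ (minpoly L x).natDegree ≠ 0 := pow_ne_zero _ hx0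
  have hζK : ζ ∈ adjoin ℚ {x} := by
    have : ζ = s.prod / x ^ (minpoly L x).natDegree := by
      rw [eq_div_iff hxd0, hprod]
    rw [this]
    exact div_mem (hle hsL) (pow_mem (mem_adjoin_simple_self ℚ x) _)
  have hxdL : x ^ (minpoly L x).natDegree ∈ L := by
    rcases zeta_pm hω hζK hζ1 with h | h
    · rw [h, one_mul] at hprod
      rw [hprod]
      exact hsL
    · rw [h] at hprod
      have : x ^ (minpoly L x).natDegree = - s.prod := by
        rw [← hprod]
        ring
      rw [this]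
      exact neg_mem hsL
  -- degrees
  have hint : IsIntegral ℚ x := hxi.tower_top
  have hmin : P.map (Int.castRingHom ℚ) = minpoly ℚ x :=
    minpoly.eq_of_irreducible_of_monic hirr (by
      rw [← hx, aeval_def, aeval_def, eval₂_map]
      congr 1) (hPm.map _)
  have hintL : IsIntegral ℚ (x ^ n) := hint.pow n
  have hfinL : FiniteDimensional ℚ L := adjoin.finiteDimensional hintL
  have htower : Module.finrank ℚ L * (minpoly L x).natDegree = (minpoly ℚ x).natDegree := by
    rw [← adjoin.finrank hxL, ← adjoin.finrank hint]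
    have h1 : ((L⟮x⟯).restrictScalars ℚ : IntermediateField ℚ ℂ) = ℚ⟮x⟯ := by
      have h0 : (adjoin (adjoin ℚ {x ^ n}) {x}).restrictScalars ℚ =
          adjoin ℚ ({x ^ n} ∪ {x}) := adjoin_adjoin_left ℚ {x ^ n} {x}
      refine h0.trans ?_
      apply le_antisymm
      · rw [adjoin_le_iff]
        intro z hz
        rcases hz with hz | hz
        · rw [Set.mem_singleton_iff] at hz
          rw [hz]
          exact pow_mem (mem_adjoin_simple_self ℚ x) _
        · rw [Set.mem_singleton_iff] at hz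
          rw [hz]
          exact mem_adjoin_simple_self ℚ x
      · rw [adjoin_simple_le_iff]
        exact subset_adjoin ℚ _ (Or.inr rfl)
    rw [Module.finrank_mul_finrank ℚ L (L⟮x⟯)]
    have h2 : Module.finrank ℚ (L⟮x⟯) =
        Module.finrank ℚ ((L⟮x⟯).restrictScalars ℚ : IntermediateField ℚ ℂ) := rfl
    rw [h2, h1]
  set d := (minpoly L x).natDegree with hd
  have hd0 : 0 < d := minpoly.natDegree_pos hxL
  by_cases hd1 : d = 1
  · rw [hd, minpoly.natDegree_eq_one_iff] at hd1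
    obtain ⟨c, hc⟩ := hd1
    exact hc ▸ c.2
  exfalso
  obtain ⟨j, hj, hjne⟩ := hexp d (by omega)
  have hRi : IsIntegral ℚ (x ^ d) := hint.pow d
  have hR : (minpoly ℚ (x ^ d)).natDegree ≤ Module.finrank ℚ L := by
    have h1 : minpoly ℚ (x ^ d) = minpoly ℚ (⟨x ^ d, hxdL⟩ : L) :=
      minpoly.algebraMap_eq (algebraMap L ℂ).injective (⟨x ^ d, hxdL⟩ : L)
    rw [h1]
    exact minpoly.natDegree_le _
  have hexpand : expand ℚ d (minpoly ℚ (x ^ d)) = minpoly ℚ x := by
    refine eq_of_monic_of_dvd_of_natDegree_le (minpoly.monic hint)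
      ((minpoly.monic hRi).expand hd0) ?_ ?_
    · apply minpoly.dvd
      rw [expand_aeval, minpoly.aeval]
    · rw [natDegree_expand, ← htower]
      exact Nat.mul_le_mul_right _ hR
  apply hjne
  have h1 : ((P.coeff j : ℤ) : ℚ) = 0 := by
    have : (P.map (Int.castRingHom ℚ)).coeff j = ((P.coeff j : ℤ) : ℚ) := by
      rw [coeff_map]
      rfl
    rw [← this, hmin, ← hexpand, coeff_expand hd0, if_neg hj]
  exact_mod_cast h1

end Pool.Agent.Zk47.WP
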