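import Mathlib

/-!
# No cube root of unity in the field of a root of `P` if `P(1) = 6` modulo nine
-/

set_option autoImplicit false

namespace Pool.Agent.Zk47.WP

open Polynomial

theorem int_of_sq {b : ℚ} {m : ℤ} (h : 3 * b ^ 2 = m) : ∃ z : ℤ, b = z := by
  have hd : (b.den : ℤ) ≠ 0 := by exact_mod_cast b.den_nz
  have hdQ : (b.den : ℚ) ≠ 0 := by exact_mod_cast b.den_nz
  have hb : b = b.num / b.den := (Rat.num_div_den b).symm
  have h1 : 3 * b.num ^ 2 = m * (b.den : ℤ) ^ 2 := by
    have h2 : (3 : ℚ) * (b.num : ℚ) ^ 2 = m * (b.den : ℚ) ^ 2 := by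
      rw [hb] at h
      field_simp at h
      linarith
    exact_mod_cast h2
  have hcop : IsCoprime (b.num) (b.den : ℤ) := by
    rw [Int.isCoprime_iff_gcd_eq_one]
    have := b.reduced
    simpa [Int.gcd, Nat.Coprime] using this
  have h3 : (b.den : ℤ) ^ 2 ∣ 3 := by
    have h4 : IsCoprime ((b.den : ℤ) ^ 2) (b.num ^ 2) := hcop.symm.pow
    refine h4.dvd_of_dvd_mul_right ?_
    exact ⟨m, by rw [h1]; ring⟩
  have h5 : (b.den : ℤ) ^ 2 ≤ 3 := Int.le_of_dvd (by norm_num) h3
  have h6 : b.den = 1 := by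
    have h7 : 0 < b.den := b.den_pos
    have h8 : (b.den : ℤ) < 2 := by nlinarith
    omega
  exact ⟨b.num, by rw [hb, h6]; simp⟩

theorem quad_norm {F : Type*} [Field F] [Algebra ℚ F] [FiniteDimensional ℚ F]
    (h2 : Module.finrank ℚ F = 2) {s : F} (hs : s ^ 2 + s + 1 = 0) {ν : F} (hν : IsIntegral ℤ ν)
    {N : ℤ} (hN : Algebra.norm ℚ ν = N) : N % 9 ≠ 6 := by
  have : CharZero F := algebraRat.charZero F
  have hq : ∀ q : ℚ, s ≠ algebraMap ℚ F q := by
    intro q h
    rw [h] at hs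
    have h1 : algebraMap ℚ F (q ^ 2 + q + 1) = 0 := by simpa using hs
    have h3 := (map_eq_zero _).1 h1
    nlinarith [sq_nonneg (q + 1 / 2)]
  have hli : LinearIndependent ℚ ![(1 : F), s] := by
    rw [LinearIndependent.pair_iff]
    intro a b hab
    have hb : b = 0 := by
      by_contra hb
      apply hq (-a / b)
      have hbF : algebraMap ℚ F b ≠ 0 := by simpa using hb
      rw [map_div₀, map_neg, eq_div_iff hbF]
      rw [Algebra.smul_def, Algebra.smul_def, mul_one] at hab
      linear_combination hab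
    subst hb
    rw [zero_smul, add_zero, Algebra.smul_def, mul_one] at hab
    exact ⟨by simpa using hab, rfl⟩
  let bs := basisOfLinearIndependentOfCardEqFinrank hli (by simp [h2])
  have b0 : bs 0 = 1 := by simp [bs]
  have b1 : bs 1 = s := by simp [bs]
  obtain ⟨a, b, hab⟩ : ∃ a b : ℚ, ν = a • bs 0 + b • bs 1 := by
    refine ⟨bs.repr ν 0, bs.repr ν 1, ?_⟩
    have := bs.sum_repr ν
    rw [Fin.sum_univ_two] at this
    exact this.symm
  have hrepr : ∀ (c d : ℚ) (z : F), z = c • bs 0 + d • bs 1 → bs.repr z 0 = c ∧ bs.repr z 1 = d := by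
    intro c d z hz
    rw [hz]
    simp [Module.Basis.repr_self]
  have m0 := hrepr a b (ν * bs 0) (by rw [hab, b0, mul_one])
  have m1 := hrepr (-b) (a - b) (ν * bs 1) (by
    rw [hab, b0, b1]
    simp only [Algebra.smul_def]
    have : s ^ 2 = - s - 1 := by linear_combination hs
    simp only [map_neg, map_sub]
    linear_combination (algebraMap ℚ F b) * this)
  have hnorm : Algebra.norm ℚ ν = a ^ 2 - a * b + b ^ 2 := by
    rw [Algebra.norm_eq_matrix_det bs, Matrix.det_fin_two]
    simp only [Algebra.leftMulMatrix_eq_repr_mul]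
    rw [m0.1, m0.2, m1.1, m1.2]
    ring
  have htr : Algebra.trace ℚ F ν = 2 * a - b := by
    rw [Algebra.trace_eq_matrix_trace bs, Matrix.trace_fin_two]
    simp only [Algebra.leftMulMatrix_eq_repr_mul]
    rw [m0.1, m1.2]
    ring
  have hti : IsIntegral ℤ (Algebra.trace ℚ F ν) := Algebra.isIntegral_trace hν
  obtain ⟨T, hT⟩ := IsIntegrallyClosed.isIntegral_iff.1 hti
  have hT' : (T : ℚ) = 2 * a - b := by
    rw [← htr]
    exact hT
  have hN' : (N : ℚ) = a ^ 2 - a * b + b ^ 2 := by rw [← hN, hnorm]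
  have h3 : 3 * b ^ 2 = ((4 * N - T ^ 2 : ℤ) : ℚ) := by
    push_cast
    rw [hT', hN']
    ring
  obtain ⟨z, hz⟩ := int_of_sq h3
  have h4 : 3 * z ^ 2 = 4 * N - T ^ 2 := by
    rw [hz] at h3
    exact_mod_cast h3
  intro hcon
  have h5 : T % 3 = 0 := by
    have h6 : (T ^ 2) % 3 = 0 := by omega
    have h7 : T % 3 = 0 ∨ T % 3 = 1 ∨ T % 3 = 2 := by omega
    rcases h7 with h | h | h
    · exact h
    · exfalso
      rw [pow_two, Int.mul_emod, h] at h6
      norm_num at h6
    · exfalso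
      rw [pow_two, Int.mul_emod, h] at h6
      norm_num at h6
  obtain ⟨u, hu⟩ : ∃ u, T = 3 * u := ⟨T / 3, by omega⟩
  have h8 : 3 * z ^ 2 = 4 * N - 9 * u ^ 2 := by rw [h4, hu]; ring
  obtain ⟨k, hk⟩ : ∃ k, N = 9 * k + 6 := ⟨N / 9, by omega⟩
  have h9 : z ^ 2 = 3 * (4 * k - u ^ 2 + 2) + 2 := by
    rw [hk] at h8
    linarith
  have h10 : z ^ 2 % 3 = 2 := by omega
  have h11 : z % 3 = 0 ∨ z % 3 = 1 ∨ z % 3 = 2 := by omega
  rcases h11 with h | h | h <;> (rw [pow_two, Int.mul_emod, h] at h10; norm_num at h10)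

theorem norm_one_sub {K : Type*} [Field K] [Algebra ℚ K] (pb : PowerBasis ℚ K) :
    Algebra.norm ℚ (1 - pb.gen) = (minpoly ℚ pb.gen).eval 1 := by
  rw [← charpoly_leftMulMatrix pb, Matrix.eval_charpoly, Algebra.norm_eq_matrix_det pb.basis]
  congr 1
  rw [map_sub, map_one]
  simp

/-- **No cube root of unity.** -/
theorem no_omega {P : ℤ[X]} (hPm : P.Monic) (hirr : Irreducible (P.map (Int.castRingHom ℚ)))
    {x : ℂ} (hx : aeval x P = 0) (h1 : P.eval 1 % 9 = 6) :
    ∀ s ∈ IntermediateField.adjoin ℚ {x}, s ^ 2 + s + 1 ≠ 0 := by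
  intro s hs hs2
  have hxi : IsIntegral ℤ x := ⟨P, hPm, hx⟩
  have hint : IsIntegral ℚ x := hxi.tower_top
  have hmin : P.map (Int.castRingHom ℚ) = minpoly ℚ x :=
    minpoly.eq_of_irreducible_of_monic hirr (by
      rw [← hx, aeval_def, aeval_def, eval₂_map]
      congr 1) (hPm.map _)
  set K := IntermediateField.adjoin ℚ {x} with hK
  have hfin : FiniteDimensional ℚ K := IntermediateField.adjoin.finiteDimensional hint
  let pb : PowerBasis ℚ K := IntermediateField.adjoin.powerBasis hint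
  have hgen : pb.gen = IntermediateField.AdjoinSimple.gen ℚ x := rfl
  have hnorm : Algebra.norm ℚ (1 - pb.gen) = ((P.eval 1 : ℤ) : ℚ) := by
    have e := norm_one_sub pb
    have e2 : minpoly ℚ pb.gen = minpoly ℚ x := IntermediateField.minpoly_gen ℚ x
    rw [e, e2, ← hmin]
    have : (1 : ℚ) = Int.castRingHom ℚ 1 := by simp
    rw [this, eval_map, eval₂_hom]
    rfl
  let s' : K := ⟨s, hs⟩
  have hs' : s' ^ 2 + s' + 1 = 0 := by
    apply Subtype.ext
    simpa [s'] using hs2
  let F : IntermediateField ℚ K := IntermediateField.adjoin ℚ {s'}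
  let sF : F := IntermediateField.AdjoinSimple.gen ℚ s'
  have hsF : sF ^ 2 + sF + 1 = 0 := by
    apply Subtype.ext
    simpa [sF] using hs'
  have hs'i : IsIntegral ℚ s' := Algebra.IsIntegral.isIntegral _
  have h2 : Module.finrank ℚ F = 2 := by
    have e : Module.finrank ℚ F = (minpoly ℚ s').natDegree :=
      IntermediateField.adjoin.finrank hs'i
    rw [e]
    have hle : (minpoly ℚ s').natDegree ≤ 2 := by
      have hd : minpoly ℚ s' ∣ (X ^ 2 + X + 1 : ℚ[X]) := by
        apply minpoly.dvd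
        simpa using hs'
      have hne : (X ^ 2 + X + 1 : ℚ[X]) ≠ 0 := by
        intro h
        have := congrArg (fun q => q.coeff 0) h
        simp at this
      refine (natDegree_le_of_dvd hd hne).trans ?_
      compute_degree
    have hpos := minpoly.natDegree_pos hs'i
    have hne1 : (minpoly ℚ s').natDegree ≠ 1 := by
      intro h
      rw [minpoly.natDegree_eq_one_iff] at h
      obtain ⟨q, hq⟩ := h
      rw [← hq] at hs'
      have h3 : algebraMap ℚ K (q ^ 2 + q + 1) = 0 := by simpa using hs'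
      have h4 := (map_eq_zero _).1 h3
      nlinarith [sq_nonneg (q + 1 / 2)]
    omega
  have hgi : IsIntegral ℤ (1 - pb.gen) := by
    refine isIntegral_one.sub ?_
    rw [hgen]
    have h3 : IsIntegral ℤ ((IntermediateField.AdjoinSimple.gen ℚ x : K) : ℂ) := by
      rw [IntermediateField.AdjoinSimple.coe_gen]
      exact hxi
    exact (isIntegral_algebraMap_iff (algebraMap K ℂ).injective).1 h3
  have hνi : IsIntegral ℤ (Algebra.norm F (1 - pb.gen)) := Algebra.isIntegral_norm F hgi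
  have hnn : Algebra.norm ℚ (Algebra.norm F (1 - pb.gen)) = ((P.eval 1 : ℤ) : ℚ) := by
    rw [Algebra.norm_norm, hnorm]
  exact quad_norm h2 hsF hνi hnn h1

end Pool.Agent.Zk47.WP
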