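import Pool.Agent.R80.WF.Defs

/-!
# Location of the roots of `PP 2 g a`

If the function `∑_{i<g} a_i w^i + (a_g / 2) w^g` has no zeros in the closed disc `|w|^2 ≤ 1/2`, then all roots of
the Weil polynomial `PP 2 g a` have absolute value `√2`.
-/

set_option autoImplicit false

namespace Pool.Agent.Zk47.WP

open Polynomial Pool.Agent.R80.WF

/-- the half of the Weil polynomial -/
noncomputable def AS (g : ℕ) (a : ℕ → ℤ) : ℂ[X] :=
  ∑ i ∈ Finset.range g, C (a i : ℂ) * X ^ (g - i) + C ((a g : ℂ) / 2)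

/-- the reciprocal half -/
noncomputable def Aw (g : ℕ) (a : ℕ → ℤ) (w : ℂ) : ℂ :=
  ∑ i ∈ Finset.range g, (a i : ℂ) * w ^ i + (a g : ℂ) / 2 * w ^ g

theorem AS_eval (g : ℕ) (a : ℕ → ℤ) (x : ℂ) :
    (AS g a).eval x = ∑ i ∈ Finset.range g, (a i : ℂ) * x ^ (g - i) + (a g : ℂ) / 2 := by
  simp [AS, eval_finsetSum]

theorem AS_eval' (g : ℕ) (a : ℕ → ℤ) {x : ℂ} (hx : x ≠ 0) :
    (AS g a).eval x = x ^ g * Aw g a x⁻¹ := by
  rw [AS_eval, Aw, mul_add, Finset.mul_sum]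
  congr 1
  · refine Finset.sum_congr rfl fun i hi => ?_
    have hi' : i ≤ g := (Finset.mem_range.1 hi).le
    have : x ^ g = x ^ (g - i) * x ^ i := by rw [← pow_add, Nat.sub_add_cancel hi']
    rw [this, inv_pow]
    field_simp
  · rw [inv_pow]
    field_simp

theorem PP_aeval (g : ℕ) (a : ℕ → ℤ) (x : ℂ) :
    aeval x (PP 2 g a) = ∑ i ∈ Finset.range g, (a i : ℂ) * (x ^ (2 * g - i) + 2 ^ (g - i) * x ^ i) +
      (a g : ℂ) * x ^ g := by
  simp [PP, map_sum, map_ofNat]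

theorem PP_eval (g : ℕ) (a : ℕ → ℤ) {x : ℂ} (hx : x ≠ 0) :
    aeval x (PP 2 g a) = x ^ g * ((AS g a).eval x + (AS g a).eval (2 / x)) := by
  rw [AS_eval, AS_eval, PP_aeval]
  rw [show ∀ A B C D : ℂ, x ^ g * (A + B + (C + D)) = x ^ g * A + x ^ g * C + x ^ g * (B + D) by
    intros; ring, Finset.mul_sum, Finset.mul_sum, ← Finset.sum_add_distrib]
  congr 1
  · refine Finset.sum_congr rfl fun i hi => ?_
    have hi' : i ≤ g := (Finset.mem_range.1 hi).le
    have e1 : x ^ g = x ^ (g - i) * x ^ i := by rw [← pow_add, Nat.sub_add_cancel hi']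
    have e2 : x ^ (2 * g - i) = x ^ g * x ^ (g - i) := by
      rw [← pow_add]
      congr 1
      omega
    rw [e2, e1, div_pow]
    field_simp
  · ring

theorem AS_monic {g : ℕ} {a : ℕ → ℤ} (hg : 1 ≤ g) (h0 : a 0 = 1) :
    (AS g a).Monic ∧ (AS g a).natDegree = g := by
  obtain ⟨k, rfl⟩ : ∃ k, g = k + 1 := ⟨g - 1, by omega⟩
  have e : AS (k + 1) a = X ^ (k + 1) +
      (∑ i ∈ Finset.range k, C (a (i + 1) : ℂ) * X ^ (k - i) + C ((a (k + 1) : ℂ) / 2)) := by
    rw [AS, Finset.sum_range_succ']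
    simp only [h0, Int.cast_one, map_one, one_mul, Nat.sub_zero]
    have : ∀ i, k + 1 - (i + 1) = k - i := fun i => by omega
    simp only [this]
    ring
  have hdeg : (∑ i ∈ Finset.range k, C (a (i + 1) : ℂ) * X ^ (k - i) +
      C ((a (k + 1) : ℂ) / 2)).degree < ((k + 1 : ℕ) : WithBot ℕ) := by
    refine lt_of_le_of_lt (degree_add_le _ _) (max_lt ?_ ?_)
    · refine lt_of_le_of_lt (degree_sum_le _ _) ?_
      rw [Finset.sup_lt_iff (WithBot.bot_lt_coe _)]
      intro i hi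
      refine lt_of_le_of_lt (degree_C_mul_X_pow_le _ _) ?_
      exact_mod_cast (by omega : k - i < k + 1)
    · refine lt_of_le_of_lt degree_C_le ?_
      exact_mod_cast Nat.succ_pos k
  constructor
  · rw [e]
    exact monic_X_pow_add hdeg
  · rw [e]
    exact natDegree_eq_of_degree_eq_some (by
      rw [degree_add_eq_left_of_degree_lt]
      · exact degree_X_pow _
      · rw [degree_X_pow]
        exact hdeg)

theorem AS_conj (g : ℕ) (a : ℕ → ℤ) (x : ℂ) :
    (starRingEnd ℂ) ((AS g a).eval x) = (AS g a).eval ((starRingEnd ℂ) x) := by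
  rw [AS_eval, AS_eval]
  simp [map_sum, map_ofNat]

/-- the key inequality -/
theorem key_lt {x α : ℂ} (hx : 2 < ‖x‖ ^ 2) (hα : ‖α‖ ^ 2 < 2) :
    ‖2 / (starRingEnd ℂ) x - α‖ < ‖x - α‖ := by
  have hx0 : 0 < ‖x‖ := by
    by_contra h
    push Not at h
    have : ‖x‖ = 0 := le_antisymm h (norm_nonneg _)
    rw [this] at hx
    norm_num at hx
  have hxne : x ≠ 0 := norm_pos_iff.1 hx0
  have hcx : (starRingEnd ℂ) x ≠ 0 := by
    simpa using hxne
  have e1 : ‖x‖ * ‖2 / (starRingEnd ℂ) x - α‖ = ‖2 - α * (starRingEnd ℂ) x‖ := by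
    have : (2 - α * (starRingEnd ℂ) x) = (starRingEnd ℂ) x * (2 / (starRingEnd ℂ) x - α) := by
      field_simp
    rw [this, norm_mul, Complex.norm_conj]
  have e2 : ‖2 - α * (starRingEnd ℂ) x‖ ^ 2 - 2 * ‖x - α‖ ^ 2 =
      (‖x‖ ^ 2 - 2) * (‖α‖ ^ 2 - 2) := by
    simp only [← Complex.normSq_eq_norm_sq, Complex.normSq_apply, Complex.sub_re, Complex.sub_im,
      Complex.mul_re, Complex.mul_im, Complex.conj_re, Complex.conj_im, Complex.re_ofNat,
      Complex.im_ofNat]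
    ring
  have e3 : ‖x‖ ^ 2 * ‖2 / (starRingEnd ℂ) x - α‖ ^ 2 < 2 * ‖x - α‖ ^ 2 := by
    rw [← mul_pow, e1]
    nlinarith
  have e4 : ‖2 / (starRingEnd ℂ) x - α‖ ^ 2 < ‖x - α‖ ^ 2 := by
    have h1 : 0 ≤ ‖2 / (starRingEnd ℂ) x - α‖ ^ 2 := by positivity
    nlinarith
  exact lt_of_pow_lt_pow_left₀ 2 (norm_nonneg _) e4

theorem AS_roots {g : ℕ} {a : ℕ → ℤ}
    (hz : ∀ w : ℂ, ‖w‖ ^ 2 ≤ 1 / 2 → Aw g a w ≠ 0) (α : ℂ) (hα : (AS g a).eval α = 0) :
    ‖α‖ ^ 2 < 2 := by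
  rcases eq_or_ne α 0 with rfl | h0
  · simp
  rw [AS_eval' g a h0] at hα
  have h1 := (mul_eq_zero.1 hα).resolve_left (pow_ne_zero _ h0)
  by_contra hcon
  push Not at hcon
  refine hz α⁻¹ ?_ h1
  rw [norm_inv, inv_pow]
  rw [one_div]
  exact inv_anti₀ (by norm_num) hcon

theorem prod_lt {s : Multiset ℂ} {x y : ℂ} (hs : s ≠ 0)
    (h : ∀ α ∈ s, ‖y - α‖ < ‖x - α‖) :
    ‖(s.map fun α => y - α).prod‖ < ‖(s.map fun α => x - α).prod‖ := by
  induction s using Multiset.induction_on with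
  | empty => exact absurd rfl hs
  | cons b s ih =>
    rw [Multiset.map_cons, Multiset.map_cons, Multiset.prod_cons, Multiset.prod_cons, norm_mul,
      norm_mul]
    have hb := h b (Multiset.mem_cons_self b s)
    rcases eq_or_ne s 0 with rfl | hs'
    · simpa using hb
    · have h1 := ih hs' fun α hα => h α (Multiset.mem_cons_of_mem hα)
      exact mul_lt_mul'' hb h1 (norm_nonneg _) (norm_nonneg _)

/-- **Location of the roots.** -/
theorem root_of_zero_free {g : ℕ} {a : ℕ → ℤ} (hg : 1 ≤ g) (h0 : a 0 = 1)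
    (hz : ∀ w : ℂ, ‖w‖ ^ 2 ≤ 1 / 2 → Aw g a w ≠ 0) (x : ℂ) (hx : aeval x (PP 2 g a) = 0) :
    ‖x‖ = Real.sqrt 2 := by
  obtain ⟨hm, hd⟩ := AS_monic hg h0
  have hx0 : x ≠ 0 := by
    rintro rfl
    rw [PP_aeval, Finset.sum_eq_single 0, h0] at hx
    · have e1 : (0 : ℂ) ^ (2 * g - 0) = 0 := zero_pow (by omega)
      have e2 : (0 : ℂ) ^ g = 0 := zero_pow (by omega)
      rw [e1, e2] at hx
      simp at hx
    · intro i hi hi0
      have := Finset.mem_range.1 hi
      rw [zero_pow (by omega), zero_pow (by omega)]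
      simp
    · intro h
      exact absurd (Finset.mem_range.2 (by omega)) h
  have hsp : (AS g a).Splits := IsAlgClosed.splits _
  have hroots : (AS g a).roots ≠ 0 := by
    intro h
    have := hsp.natDegree_eq_card_roots
    rw [hd, h] at this
    simp at this
    omega
  have key : ∀ y : ℂ, y ≠ 0 → 2 < ‖y‖ ^ 2 → aeval y (PP 2 g a) ≠ 0 := by
    intro y hy hy2 h
    rw [PP_eval g a hy] at h
    have h1 := (mul_eq_zero.1 h).resolve_left (pow_ne_zero _ hy)
    have h2 : ‖(AS g a).eval y‖ = ‖(AS g a).eval (2 / y)‖ := by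
      have : (AS g a).eval y = -(AS g a).eval (2 / y) := by linear_combination h1
      rw [this, norm_neg]
    have h3 : ‖(AS g a).eval (2 / y)‖ = ‖(AS g a).eval (2 / (starRingEnd ℂ) y)‖ := by
      rw [← Complex.norm_conj, AS_conj]
      congr 2
      rw [map_div₀, map_ofNat]
    rw [h3, hsp.eval_eq_prod_roots_of_monic hm, hsp.eval_eq_prod_roots_of_monic hm] at h2
    refine absurd h2.symm (ne_of_lt (prod_lt hroots fun α hα => key_lt hy2 ?_))
    exact AS_roots hz α ((mem_roots hm.ne_zero).1 hα)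
  have hsym : aeval (2 / x) (PP 2 g a) = 0 := by
    have h2x : (2 : ℂ) / x ≠ 0 := div_ne_zero two_ne_zero hx0
    rw [PP_eval g a hx0] at hx
    have h1 := (mul_eq_zero.1 hx).resolve_left (pow_ne_zero _ hx0)
    rw [PP_eval g a h2x]
    have e : (2 : ℂ) / (2 / x) = x := by field_simp
    rw [e, add_comm, h1, mul_zero]
  have hle : ‖x‖ ^ 2 ≤ 2 := by
    by_contra hcon
    push Not at hcon
    exact key x hx0 hcon hx
  have hge : 2 ≤ ‖x‖ ^ 2 := by
    by_contra hcon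
    push Not at hcon
    refine key (2 / x) (div_ne_zero two_ne_zero hx0) ?_ hsym
    rw [norm_div, div_pow]
    have hn : 0 < ‖x‖ ^ 2 := by positivity
    rw [lt_div_iff₀ hn]
    have : ‖(2 : ℂ)‖ ^ 2 = 4 := by norm_num
    rw [this]
    linarith
  have h2 : ‖x‖ ^ 2 = 2 := le_antisymm hle hge
  rw [← h2, Real.sqrt_sq (norm_nonneg _)]

end Pool.Agent.Zk47.WP
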