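import Pool.Agent.R80.WF.Fin
import Pool.Agent.Zk47.WP.Root
import Pool.Agent.Zk47.WP.Irr
import Pool.Agent.Zk47.WP.Nd2
import Pool.Agent.Zk47.WP.Om

/-!
# The criterion for `p = 2`
-/

set_option autoImplicit false

namespace Pool.Agent.Zk47.WP

open Polynomial Pool.Agent.R80.WF

/-- the coefficients of `(1 - X^2)^g` -/
def c3 (g i : ℕ) : ℤ := if i % 2 = 0 then (-1) ^ (i / 2) * (g.choose (i / 2) : ℤ) else 0

theorem map_PP3 {g : ℕ} {a : ℕ → ℤ} (ha : ∀ i ≤ g, (a i - c3 g i) % 3 = 0) :
    (PP 2 g a).map (Int.castRingHom (ZMod 3)) = (X ^ 2 - 1) ^ g := by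
  have hX : ((X : (ZMod 3)[X]) ^ 2 - 1) ^ g = expand (ZMod 3) 2 ((X + C (-1)) ^ g) := by
    rw [map_pow, map_add, expand_X, expand_C, C_neg, C_1, sub_eq_add_neg]
  have key : ∀ i ≤ g, ((a i : ℤ) : ZMod 3) = ((c3 g i : ℤ) : ZMod 3) := by
    intro i hi
    rw [← sub_eq_zero, ← Int.cast_sub]
    exact (ZMod.intCast_zmod_eq_zero_iff_dvd _ 3).2 (by
      have := ha i hi
      push_cast
      omega)
  rw [hX]
  ext k
  rw [coeff_map, coeff_expand (by norm_num : 0 < 2), coeff_X_add_C_pow, coeff_PP]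
  have h2 : ((2 : ℤ) : ZMod 3) = -1 := by decide
  split_ifs with h1 hk h3 hk h4 h5 h6
  · obtain ⟨j, rfl⟩ := hk
    rw [map_mul, map_pow, eq_intCast, eq_intCast, key _ h1.le]
    have e : (((2 : ℕ) : ℤ) : ZMod 3) = -1 := h2
    rw [e, c3, if_pos (by omega)]
    have e2 : 2 * j / 2 = j := by omega
    rw [e2]
    push_cast
    have e3 : g - j = (g - 2 * j) + j := by omega
    rw [e3, pow_add]
    ring
  · rw [map_mul, eq_intCast, eq_intCast, key _ h1.le, c3, if_neg (by omega)]
    simp
  · obtain ⟨j, rfl⟩ := hk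
    rw [eq_intCast, key _ le_rfl, c3, if_pos (by omega)]
    have e2 : 2 * j / 2 = j := by omega
    rw [← h3]
    rw [e2]
    push_cast
    have e3 : 2 * j - j = j := by omega
    rw [e3]
  · rw [eq_intCast, key _ le_rfl, c3, if_neg (by omega)]
    simp
  · obtain ⟨j, rfl⟩ := h5
    rw [eq_intCast, key _ (by omega), c3, if_pos (by omega)]
    have e2 : 2 * j / 2 = j := by omega
    have e3 : (2 * g - 2 * j) / 2 = g - j := by omega
    rw [e2, e3]
    push_cast
    rw [Nat.choose_symm (by omega : j ≤ g)]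
  · rw [eq_intCast, key _ (by omega), c3, if_neg (by omega)]
    simp
  · rw [Nat.choose_eq_zero_of_lt (by omega)]
    simp
  · simp

theorem eval_PP_one (g : ℕ) (a : ℕ → ℤ) :
    (PP 2 g a).eval 1 = ∑ i ∈ Finset.range g, a i * (1 + 2 ^ (g - i)) + a g := by
  unfold PP
  simp [eval_finsetSum]

/-- **The criterion.** -/
theorem good2 {g f : ℕ} {a : ℕ → ℤ} (hg : 2 ≤ g) (hf : f ≤ g) (ha0 : a 0 = 1)
    (h3 : ∀ i ≤ g, (a i - c3 g i) % 3 = 0)
    (h9 : (∑ i ∈ Finset.range g, a i * (1 + 2 ^ (g - i)) + a g) % 9 = 6)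
    (hdiv : ∀ i, f < i → i ≤ g → a i % 2 = 0) (hnd : a f % 2 = 1)
    (hcons : ∃ i < g, a i ≠ 0 ∧ a (i + 1) ≠ 0)
    (hroot : ∀ x : ℂ, aeval x (PP 2 g a) = 0 → ‖x‖ = Real.sqrt 2) : Good 2 g f := by
  set P := PP 2 g a with hP
  have hm : P.Monic := monic_PP (by omega) ha0
  have hd : P.natDegree = 2 * g := natDegree_PP (by omega) ha0
  have hmod := map_PP3 h3
  rw [← hP] at hmod
  have h1 : P.eval 1 % 9 = 6 := by rw [hP, eval_PP_one]; exact h9
  have hr2 : ∀ x : ℂ, aeval x P = 0 → ‖x‖ ^ 2 = 2 := by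
    intro x hx
    rw [hroot x hx, Real.sq_sqrt (by norm_num)]
  have hP0 : P.eval 0 = 2 ^ g := by
    rw [← coeff_zero_eq_eval_zero, hP, coeff_PP, if_pos (by omega), ha0]
    simp
  have h0 : ¬ (3 : ℤ) ∣ P.eval 0 := by
    rw [hP0]
    intro h
    have := Int.prime_three.dvd_of_dvd_pow h
    norm_num at this
  have hirr : Irreducible (P.map (Int.castRingHom ℚ)) :=
    irr3 hm (by omega) hmod h0 (by omega) hr2
  refine ⟨P, hm, hd, hirr, ?_, ?_, ?_, ?_⟩
  · intro x hx
    have := hroot x hx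
    rw [this]
    norm_num
  · intro i hi
    rw [hP, coeff_PP]
    split_ifs with k1 k2 k4
    · exact Dvd.dvd.mul_right (dvd_pow_self _ (by omega)) _
    · have := hdiv g (by omega) le_rfl
      exact Int.dvd_of_emod_eq_zero this
    · have := hdiv (2 * g - i) (by omega) (by omega)
      exact Int.dvd_of_emod_eq_zero this
    · exact dvd_zero _
  · rw [hP, coeff_PP]
    have hcast : ((2 : ℕ) : ℤ) = 2 := rfl
    split_ifs with k1 k2 k4
    · omega
    · have : f = g := by omega
      rw [← this, hcast]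
      omega
    · have : 2 * g - (2 * g - f) = f := by omega
      rw [this, hcast]
      omega
    · omega
  · intro x hx n hn
    have hx0 : x ≠ 0 := by
      rintro rfl
      have := hr2 0 hx
      norm_num at this
    refine nd3 hm hmod hirr hx hx0 (no_omega hm hirr hx h1) ?_ n hn
    intro d hd2
    by_contra hcon
    push Not at hcon
    obtain ⟨i, hi, hne', hne⟩ := hcons
    have c1 : d ∣ 2 * g - (i + 1) := by
      by_contra h
      have := hcon (2 * g - (i + 1)) h
      rw [hP, coeff_PP] at this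
      split_ifs at this with k1 k2 k3
      · omega
      · have e : i + 1 = g := by omega
        rw [e] at hne
        exact hne this
      · have e : 2 * g - (2 * g - (i + 1)) = i + 1 := by omega
        rw [e] at this
        exact hne this
      · omega
    have c2 : d ∣ (2 * g - (i + 1)) + 1 := by
      by_contra h
      have := hcon _ h
      rw [hP, coeff_PP] at this
      split_ifs at this with k1 k2 k3
      · omega
      · omega
      · have e : 2 * g - (2 * g - (i + 1) + 1) = i := by omega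
        rw [e] at this
        exact hne' this
      · omega
    have c3 : d ∣ 1 := (Nat.dvd_add_right c1).1 c2
    have := Nat.le_of_dvd (by norm_num) c3
    omega

end Pool.Agent.Zk47.WP
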