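import Pool.Agent.Zk47.WP.PerL

/-!
# Irreducibility of explicit integer polynomials from factor types modulo primes
-/

set_option autoImplicit false

namespace Pool.Agent.Zk47.WP

open Polynomial Pool.Agent.R80.WF

section

variable {A : Type*} [CommRing A]

/-- value of a list of coefficients, lowest coefficient first -/
def evl (x : A) : List ℤ → A
  | [] => 0
  | c :: t => (c : A) + x * evl x t

/-- remainder of the polynomial with coefficients `hl`, lowest first, times `v` -/
def acc (q : ℤ) (pl : List ℤ) : List ℤ → List ℤ → List ℤ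
  | [], _ => List.replicate pl.length 0
  | c :: t, v => List.zipWith (fun a b => (a - (-c) * b) % q) (acc q pl t (step q pl v)) v

theorem acc_spec {q : ℤ} (hq : (q : A) = 0) {x : A} {pl : List ℤ}
    (hx : x ^ pl.length + ev x pl = 0) : ∀ (hl v : List ℤ), v.length = pl.length →
    (acc q pl hl v).length = pl.length ∧ ev x (acc q pl hl v) = evl x hl * ev x v
  | [], v, _ => by simp [acc, evl, ev_replicate]
  | c :: t, v, hv => by
    obtain ⟨h1, h2⟩ := step_spec hq hx hv
    obtain ⟨h3, h4⟩ := acc_spec hq hx t (step q pl v) h1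
    refine ⟨?_, ?_⟩
    · rw [acc, List.length_zipWith, h3, hv, min_self]
    · rw [acc, ev_zip hq x (-c) _ _ (h3.trans hv.symm), h4, h2, evl]
      push_cast
      ring

end

theorem degree_ev {R : Type*} [CommRing R] [Nontrivial R] (l : List ℤ) :
    (ev (X : R[X]) l).degree < (l.length : WithBot ℕ) := by
  induction l with
  | nil => simp [ev]
  | cons c t ih =>
    rw [ev_cons]
    refine lt_of_le_of_lt (degree_add_le _ _) (max_lt ?_ ?_)
    · refine lt_of_le_of_lt (b := ((t.length : ℕ) : WithBot ℕ)) ?_ ?_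
      · have : ((c : ℤ) : R[X]) = C ((c : ℤ) : R) := by simp
        rw [this]
        exact degree_C_mul_X_pow_le _ _
      · rw [List.length_cons]
        exact_mod_cast Nat.lt_succ_self _
    · refine lt_trans ih ?_
      rw [List.length_cons]
      exact_mod_cast Nat.lt_succ_self _

theorem ev_eq_zero {R : Type*} [CommRing R] [Nontrivial R] : ∀ (l : List ℤ),
    ev (X : R[X]) l = 0 → ∀ c ∈ l, ((c : ℤ) : R) = 0
  | [], _, c, hc => by simp at hc
  | c :: t, h, b, hb => by
    have h1 := congrArg (fun f => coeff f t.length) h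
    have h2 : coeff (ev (X : R[X]) t) t.length = 0 :=
      coeff_eq_zero_of_degree_lt (degree_ev t)
    have h3 : ((c : ℤ) : R[X]) = C ((c : ℤ) : R) := by simp
    simp only [ev_cons, coeff_add, h2, add_zero, h3, coeff_C_mul_X_pow, if_true, coeff_zero] at h1
    rcases List.mem_cons.1 hb with rfl | hb
    · exact h1
    · refine ev_eq_zero t ?_ b hb
      rw [ev_cons, h3, h1, C_0, zero_mul, zero_add] at h
      exact h

/-- all lists of length `k` with entries `0, …, q - 1` -/
def lists (q : ℕ) : ℕ → List (List ℤ)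
  | 0 => [[]]
  | k + 1 => (List.range q).flatMap fun (c : ℕ) => (lists q k).map fun l => (c : ℤ) :: l

/-- the residues of the coefficients -/
noncomputable def clq (f : ℤ[X]) (q : ℕ) : ℕ → List ℤ
  | 0 => []
  | n + 1 => (f.coeff n % q) :: clq f q n

theorem clq_length (f : ℤ[X]) (q n : ℕ) : (clq f q n).length = n := by
  induction n with
  | zero => rfl
  | succ n ih => simp [clq, ih]

theorem clq_mem (f : ℤ[X]) {q : ℕ} (hq : 1 ≤ q) (n : ℕ) : clq f q n ∈ lists q n := by
  induction n with
  | zero => simp [clq, lists]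
  | succ n ih =>
    rw [clq, lists, List.mem_flatMap]
    have h1 : 0 ≤ f.coeff n % q := Int.emod_nonneg _ (by omega)
    have h2 : f.coeff n % q < q := Int.emod_lt_of_pos _ (by omega)
    refine ⟨(f.coeff n % q).toNat, ?_, ?_⟩
    · rw [List.mem_range]
      omega
    · rw [List.mem_map]
      refine ⟨_, ih, ?_⟩
      rw [Int.toNat_of_nonneg h1]

theorem ev_clq {A : Type*} [CommRing A] (f : ℤ[X]) {q : ℕ} (hq : ((q : ℤ) : A) = 0) (x : A)
    (n : ℕ) : ev x (clq f q n) = ∑ i ∈ Finset.range n, (f.coeff i : A) * x ^ i := by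
  induction n with
  | zero => simp [clq, ev]
  | succ n ih =>
    rw [clq, ev_cons, clq_length, ih, cast_emod hq, Finset.sum_range_succ]
    ring

/-- **No factor of degree `k`**, from a computation modulo `q`. -/
theorem no_factor {q k : ℕ} [Fact q.Prime] {hl : List ℤ} {h : ℤ[X]} (hh : h = evl X hl)
    (hk : 1 ≤ k)
    (hdec : ∀ gl ∈ lists q k, acc q gl hl (oneL k) ≠ List.replicate k 0)
    (hrange : ∀ gl ∈ lists q k, ∀ c ∈ acc q gl hl (oneL k), 0 ≤ c ∧ c < q) {g : ℤ[X]}
    (hg : g.Monic) (hgd : g.natDegree = k) : ¬ g ∣ h := by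
  intro hdvd
  have hq1 : 1 ≤ q := (Fact.out : q.Prime).one_lt.le
  set gl := clq g q k with hgl
  have hmem : gl ∈ lists q k := clq_mem g hq1 k
  have hlen : gl.length = k := clq_length g q k
  set I : Ideal ℤ[X] := Ideal.span {g, C (q : ℤ)} with hI
  set φ := Ideal.Quotient.mk I with hφ
  have h1 : φ g = 0 := Ideal.Quotient.eq_zero_iff_mem.2 (Ideal.subset_span (by simp))
  have h2 : φ (C (q : ℤ)) = 0 := Ideal.Quotient.eq_zero_iff_mem.2 (Ideal.subset_span (by simp))
  have hq : (((q : ℕ) : ℤ) : ℤ[X] ⧸ I) = 0 := by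
    rw [← h2]
    simp
  have hx : (φ X) ^ gl.length + ev (φ X) gl = 0 := by
    rw [hgl, ev_clq g hq, ← hgl, hlen]
    rw [hg.as_sum, hgd, map_add, map_pow, map_sum] at h1
    rw [← h1]
    congr 1
  have hone : (oneL k).length = gl.length := by
    rw [hlen]
    simp only [oneL, List.length_append, List.length_replicate, List.length_cons, List.length_nil]
    omega
  obtain ⟨h3, h4⟩ := acc_spec hq hx hl (oneL k) hone
  have hevl : ∀ l : List ℤ, φ (evl X l) = evl (φ X) l := by
    intro l
    induction l with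
    | nil => simp [evl]
    | cons c t ih => simp [evl, ih]
  rw [ev_oneL, mul_one, ← hevl, ← hh] at h4
  have h5 : φ h = 0 := by
    obtain ⟨s, rfl⟩ := hdvd
    rw [map_mul, h1, zero_mul]
  rw [h5, ← map_ev] at h4
  have h6 : ev X (acc q gl hl (oneL k)) ∈ I := Ideal.Quotient.eq_zero_iff_mem.1 h4
  obtain ⟨S, R, hSR⟩ := Ideal.mem_span_pair.1 h6
  set ψ := Polynomial.mapRingHom (Int.castRingHom (ZMod q)) with hψ
  have h7 := congrArg ψ hSR
  rw [map_add, map_mul, map_mul, map_ev] at h7
  have h8 : ψ (C (q : ℤ)) = 0 := by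
    rw [hψ, coe_mapRingHom, map_C]
    simp
  have h9 : ψ X = X := by
    rw [hψ, coe_mapRingHom, map_X]
  rw [h8, mul_zero, add_zero, h9] at h7
  have hgm : (ψ g).Monic := hg.map _
  have hgmd : (ψ g).natDegree = k := by
    rw [hψ, coe_mapRingHom, hg.natDegree_map, hgd]
  have h10 : ev (X : (ZMod q)[X]) (acc q gl hl (oneL k)) = 0 := by
    by_contra hne
    have hd : ψ g ∣ ev (X : (ZMod q)[X]) (acc q gl hl (oneL k)) := ⟨ψ S, by rw [← h7]; ring⟩
    have := degree_le_of_dvd hd hne
    have h11 := degree_ev (R := ZMod q) (acc q gl hl (oneL k))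
    rw [h3, hlen] at h11
    rw [degree_eq_natDegree hgm.ne_zero, hgmd] at this
    exact absurd (lt_of_le_of_lt this h11) (lt_irrefl _)
  have h12 := ev_eq_zero _ h10
  apply hdec gl hmem
  rw [List.eq_replicate_iff]
  refine ⟨h3.trans hlen, ?_⟩
  intro c hc
  have h13 := h12 c hc
  obtain ⟨h14, h15⟩ := hrange gl hmem c hc
  rw [ZMod.intCast_zmod_eq_zero_iff_dvd] at h13
  have := Int.eq_zero_of_dvd_of_nonneg_of_lt h14 h15 h13
  exact this

theorem irreducible_of_types {h : ℤ[X]} (hm : h.Monic) (h0 : 1 ≤ h.natDegree)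
    (H : ∀ k, 1 ≤ k → k ≤ h.natDegree / 2 → ∀ g : ℤ[X], g.Monic → g.natDegree = k → ¬ g ∣ h) :
    Irreducible h := by
  rw [hm.irreducible_iff_natDegree']
  refine ⟨?_, ?_⟩
  · rintro rfl
    simp at h0
  · intro f g hf hg hfg hmem
    rw [Finset.mem_Ioc] at hmem
    exact H _ hmem.1 hmem.2 g hg rfl ⟨f, by rw [← hfg]; ring⟩

end Pool.Agent.Zk47.WP
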