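import Pool.Agent.Zk47.WP.Good
import Pool.Agent.R80.WF.XG

/-!
# The real Weil polynomial of `PP 2 g a` and roots from sample points
-/

set_option autoImplicit false

namespace Pool.Agent.Zk47.WP

open Polynomial Pool.Agent.R80.WF

/-- the polynomials with `DP k (x + 2 / x) = x ^ k + (2 / x) ^ k` -/
noncomputable def DP : ℕ → ℤ[X]
  | 0 => C 2
  | 1 => X
  | k + 2 => X * DP (k + 1) - C 2 * DP k

theorem DP_succ (k : ℕ) : DP (k + 2) = X * DP (k + 1) - C 2 * DP k := rfl

theorem DP_aeval {x x' : ℂ} (hxx : x * x' = 2) (k : ℕ) :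
    aeval (x + x') (DP k) = x ^ k + x' ^ k ∧ aeval (x + x') (DP (k + 1)) = x ^ (k + 1) + x' ^ (k + 1) := by
  induction k with
  | zero =>
    constructor
    · simp only [DP, aeval_C, pow_zero]
      norm_num
    · simp [DP]
  | succ k ih =>
    refine ⟨ih.2, ?_⟩
    rw [DP_succ, map_sub, map_mul, map_mul, aeval_X, ih.1, ih.2, aeval_C]
    simp only [algebraMap_int_eq, eq_intCast, Int.cast_ofNat]
    linear_combination (x ^ k + x' ^ k) * hxx

theorem degree_C_mul_le' (c : ℤ) (p : ℤ[X]) : (C c * p).degree ≤ p.degree := by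
  by_cases h : c = 0
  · rw [h, C_0, zero_mul, degree_zero]
    exact bot_le
  · rw [degree_C_mul h]

theorem DP_deg (k : ℕ) : (DP (k + 1)).Monic ∧ (DP (k + 1)).natDegree = k + 1 ∧
    (DP k).degree < ((k + 1 : ℕ) : WithBot ℕ) := by
  induction k with
  | zero =>
    refine ⟨monic_X, natDegree_X, ?_⟩
    refine lt_of_le_of_lt degree_C_le ?_
    exact_mod_cast Nat.one_pos
  | succ k ih =>
    obtain ⟨h1, h2, h3⟩ := ih
    have hm : (X * DP (k + 1)).Monic := monic_X.mul h1
    have hd : (X * DP (k + 1)).natDegree = k + 2 := by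
      rw [monic_X.natDegree_mul h1, natDegree_X, h2]
      ring
    have hlt : (C 2 * DP k).degree < (X * DP (k + 1)).degree := by
      rw [degree_eq_natDegree hm.ne_zero, hd]
      refine lt_of_le_of_lt (degree_C_mul_le' _ _) (lt_trans h3 ?_)
      exact_mod_cast (by omega : k + 1 < k + 2)
    refine ⟨?_, ?_, ?_⟩
    · rw [DP_succ]
      exact hm.sub_of_left hlt
    · rw [DP_succ, natDegree_sub_eq_left_of_natDegree_lt, hd]
      rw [hd]
      by_cases h0 : C 2 * DP k = 0
      · rw [h0]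
        simp
      · have := (natDegree_lt_natDegree_iff h0).2 hlt
        rwa [hd] at this
    · rw [degree_eq_natDegree h1.ne_zero, h2]
      exact_mod_cast (by omega : k + 1 < k + 1 + 1)

/-- the real Weil polynomial -/
noncomputable def HP (g : ℕ) (a : ℕ → ℤ) : ℤ[X] :=
  ∑ i ∈ Finset.range g, C (a i) * DP (g - i) + C (a g)

theorem HP_monic {g : ℕ} {a : ℕ → ℤ} (hg : 1 ≤ g) (h0 : a 0 = 1) :
    (HP g a).Monic ∧ (HP g a).natDegree = g := by
  obtain ⟨k, rfl⟩ : ∃ k, g = k + 1 := ⟨g - 1, by omega⟩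
  have e : HP (k + 1) a = DP (k + 1) +
      (∑ i ∈ Finset.range k, C (a (i + 1)) * DP (k - i) + C (a (k + 1))) := by
    rw [HP, Finset.sum_range_succ']
    simp only [h0, map_one, one_mul, Nat.sub_zero]
    have : ∀ i, k + 1 - (i + 1) = k - i := fun i => by omega
    simp only [this]
    ring
  obtain ⟨h1, h2, -⟩ := DP_deg k
  have hdeg : (∑ i ∈ Finset.range k, C (a (i + 1)) * DP (k - i) +
      C (a (k + 1))).degree < (DP (k + 1)).degree := by
    rw [degree_eq_natDegree h1.ne_zero, h2]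
    refine lt_of_le_of_lt (degree_add_le _ _) (max_lt ?_ ?_)
    · refine lt_of_le_of_lt (degree_sum_le _ _) ?_
      rw [Finset.sup_lt_iff (WithBot.bot_lt_coe _)]
      intro i hi
      refine lt_of_le_of_lt (degree_C_mul_le' _ _) ?_
      refine lt_of_lt_of_le (DP_deg (k - i)).2.2 ?_
      exact_mod_cast (by omega : k - i + 1 ≤ k + 1)
    · refine lt_of_le_of_lt degree_C_le ?_
      exact_mod_cast Nat.succ_pos k
  rw [e]
  refine ⟨h1.add_of_left hdeg, ?_⟩
  exact natDegree_eq_of_degree_eq_some (by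
    rw [degree_add_eq_left_of_degree_lt hdeg, degree_eq_natDegree h1.ne_zero, h2])

theorem PP_HP {g : ℕ} (a : ℕ → ℤ) {x x' : ℂ} (hxx : x * x' = 2) :
    aeval x (PP 2 g a) = x ^ g * aeval (x + x') (HP g a) := by
  rw [PP_aeval, HP, map_add, map_sum, mul_add, Finset.mul_sum, aeval_C]
  congr 1
  · refine Finset.sum_congr rfl fun i hi => ?_
    have hi' : i < g := Finset.mem_range.1 hi
    rw [map_mul, aeval_C, (DP_aeval hxx (g - i)).1]
    have e1 : x ^ g = x ^ (g - i) * x ^ i := by rw [← pow_add, Nat.sub_add_cancel hi'.le]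
    have e2 : x ^ (2 * g - i) = x ^ g * x ^ (g - i) := by
      rw [← pow_add]
      congr 1
      omega
    have e3 : (2 : ℂ) ^ (g - i) = x ^ (g - i) * x' ^ (g - i) := by rw [← mul_pow, hxx]
    rw [e2, e3, e1]
    simp only [algebraMap_int_eq, eq_intCast]
    ring
  · simp only [algebraMap_int_eq, eq_intCast]
    ring

/-- roots of a real polynomial from sign changes -/
theorem roots_of_samples {H : ℤ[X]} (g : ℕ) (t : ℕ → ℝ)
    (hlt : ∀ j < g, t j < t (j + 1)) (hb : ∀ j ≤ g, (t j) ^ 2 ≤ 8)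
    (hs : ∀ j < g, aeval (t j) H * aeval (t (j + 1)) H < 0) :
    ∃ S : Finset ℝ, S.card = g ∧ (∀ s ∈ S, aeval s H = 0) ∧ ∀ s ∈ S, s ^ 2 ≤ 8 := by
  classical
  have hmono : ∀ i j, i ≤ j → j ≤ g → t i ≤ t j := by
    intro i j hij
    induction j, hij using Nat.le_induction with
    | base => intro _; exact le_rfl
    | succ j hij ih => intro hj; exact (ih (by omega)).trans (hlt j (by omega)).le
  have hex : ∀ j : Fin g, ∃ s : ℝ, t j < s ∧ s < t (j + 1) ∧ aeval s H = 0 := by
    intro j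
    have hcont : Continuous fun s : ℝ => aeval s H := by
      have : (fun s : ℝ => aeval s H) = fun s => (H.map (algebraMap ℤ ℝ)).eval s := by
        funext s
        rw [eval_map_algebraMap]
      rw [this]
      exact Polynomial.continuous _
    have h1 := hs j j.2
    have hle := (hlt j j.2).le
    rcases mul_neg_iff.1 h1 with ⟨h2, h3⟩ | ⟨h2, h3⟩
    · obtain ⟨s, hs1, hs2⟩ := intermediate_value_Icc' hle hcont.continuousOn ⟨h3.le, h2.le⟩
      refine ⟨s, lt_of_le_of_ne hs1.1 ?_, lt_of_le_of_ne hs1.2 ?_, hs2⟩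
      · rintro rfl
        simp only at hs2
        rw [hs2] at h2
        exact lt_irrefl _ h2
      · rintro rfl
        simp only at hs2
        rw [hs2] at h3
        exact lt_irrefl _ h3
    · obtain ⟨s, hs1, hs2⟩ := intermediate_value_Icc hle hcont.continuousOn ⟨h2.le, h3.le⟩
      refine ⟨s, lt_of_le_of_ne hs1.1 ?_, lt_of_le_of_ne hs1.2 ?_, hs2⟩
      · rintro rfl
        simp only at hs2
        rw [hs2] at h2
        exact lt_irrefl _ h2
      · rintro rfl
        simp only at hs2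
        rw [hs2] at h3
        exact lt_irrefl _ h3
  choose s h1 h2 h3 using hex
  have hinj : StrictMono s := by
    intro i j hij
    have h4 : (i : ℕ) + 1 ≤ j := hij
    have h5 := hmono _ _ h4 j.2.le
    exact lt_of_lt_of_le (h2 i) (h5.trans (h1 j).le)
  refine ⟨Finset.univ.image s, ?_, ?_, ?_⟩
  · rw [Finset.card_image_of_injective _ hinj.injective, Finset.card_univ, Fintype.card_fin]
  · intro r hr
    obtain ⟨j, -, rfl⟩ := Finset.mem_image.1 hr
    exact h3 j
  · intro r hr
    obtain ⟨j, -, rfl⟩ := Finset.mem_image.1 hr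
    have e1 := hb j j.2.le
    have e2 := hb (j + 1) j.2
    have e3 := h1 j
    have e4 := h2 j
    rcases le_total 0 (s j) with h | h
    · nlinarith
    · nlinarith

/-- **Location of the roots from sample points.** -/
theorem root_of_samples {g : ℕ} {a : ℕ → ℤ} (hg : 1 ≤ g) (h0 : a 0 = 1) (t : ℕ → ℝ)
    (hlt : ∀ j < g, t j < t (j + 1)) (hb : ∀ j ≤ g, (t j) ^ 2 ≤ 8)
    (hs : ∀ j < g, aeval (t j) (HP g a) * aeval (t (j + 1)) (HP g a) < 0) (x : ℂ)
    (hx : aeval x (PP 2 g a) = 0) : ‖x‖ = Real.sqrt 2 := by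
  obtain ⟨hm, hd⟩ := HP_monic hg h0
  obtain ⟨S, hS1, hS2, hS3⟩ := roots_of_samples g t hlt hb hs
  have hx0 : x ≠ 0 := by
    rintro rfl
    have h1 : (PP 2 g a).coeff 0 = 0 := by
      rw [aeval_def, eval₂_at_zero] at hx
      simpa using hx
    rw [coeff_PP, if_pos (by omega), h0] at h1
    simp at h1
  have hxx : x * (2 / x) = ((2 : ℕ) : ℂ) := by
    push_cast
    field_simp
  have hβ : aeval (x + 2 / x) (HP g a) = 0 := by
    rw [PP_HP a (x' := 2 / x) (by rw [hxx]; norm_num)] at hx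
    exact (mul_eq_zero.1 hx).resolve_left (pow_ne_zero _ hx0)
  have := xg_norm_of_roots (p := 2) (by norm_num) hm hd S hS1 hS2 (fun s hs => by
    have := hS3 s hs
    push_cast
    linarith) x (2 / x) hxx hβ
  simpa using this

end Pool.Agent.Zk47.WP
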