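import Pool.Agent.Zk47.WP.Sp
import Pool.Agent.Zk47.WP.Real
import Pool.Agent.Y676.WP.OneTwo

/-!
# Computations modulo a monic polynomial and a number, with coefficient lists
-/

set_option autoImplicit false

namespace Pool.Agent.Zk47.WP

open Polynomial Pool.Agent.R80.WF

section

variable {A : Type*} [CommRing A]

/-- value of a list of coefficients, highest coefficient first -/
def ev (x : A) : List ℤ → A
  | [] => 0
  | c :: t => (c : A) * x ^ t.length + ev x t

theorem ev_cons (x : A) (c : ℤ) (t : List ℤ) : ev x (c :: t) = (c : A) * x ^ t.length + ev x t := rfl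

/-- multiplication by `X` modulo the monic polynomial with lower coefficients `pl` and `q` -/
def step (q : ℤ) (pl v : List ℤ) : List ℤ :=
  match v with
  | [] => []
  | c :: t => List.zipWith (fun a p => (a - c * p) % q) (t ++ [0]) pl

/-- iterated multiplication by `X` -/
def iter (q : ℤ) (pl : List ℤ) : ℕ → List ℤ → List ℤ
  | 0, v => v
  | M + 1, v => iter q pl M (step q pl v)

theorem ev_append (x : A) (c : ℤ) (t : List ℤ) : ev x (t ++ [c]) = x * ev x t + c := by
  induction t with
  | nil => simp [ev]
  | cons b t ih =>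
    simp only [List.cons_append, ev_cons, ih, List.length_append, List.length_cons,
      List.length_nil]
    ring

theorem cast_emod {q : ℤ} (hq : (q : A) = 0) (z : ℤ) : ((z % q : ℤ) : A) = z := by
  have h := Int.emod_add_mul_ediv z q
  have h2 : ((z % q + q * (z / q) : ℤ) : A) = z := by rw [h]
  rw [Int.cast_add, Int.cast_mul, hq, zero_mul, add_zero] at h2
  exact h2

theorem ev_zip {q : ℤ} (hq : (q : A) = 0) (x : A) (c : ℤ) : ∀ l1 l2 : List ℤ,
    l1.length = l2.length →
    ev x (List.zipWith (fun a p => (a - c * p) % q) l1 l2) = ev x l1 - c * ev x l2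
  | [], [], _ => by simp [ev]
  | a :: l1, b :: l2, h => by
    have h' : l1.length = l2.length := by simpa using h
    rw [List.zipWith_cons_cons, ev_cons, ev_cons, ev_cons, ev_zip hq x c l1 l2 h', cast_emod hq,
      List.length_zipWith, h', min_self]
    push_cast
    ring

theorem step_spec {q : ℤ} (hq : (q : A) = 0) {x : A} {pl : List ℤ}
    (hx : x ^ pl.length + ev x pl = 0) {v : List ℤ} (hv : v.length = pl.length) :
    (step q pl v).length = pl.length ∧ ev x (step q pl v) = x * ev x v := by
  match v with
  | [] =>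
    refine ⟨hv, ?_⟩
    simp [step, ev]
  | c :: t =>
    have h1 : (t ++ [0]).length = pl.length := by simpa using hv
    have h2 : t.length + 1 = pl.length := by simpa using hv
    refine ⟨?_, ?_⟩
    · rw [step, List.length_zipWith, h1, min_self]
    · rw [step, ev_zip hq x c _ _ h1, ev_append, ev_cons]
      push_cast
      have h3 : x ^ pl.length = x * x ^ t.length := by rw [← h2, pow_succ']
      rw [h3] at hx
      linear_combination (-(c : A)) * hx

theorem iter_spec {q : ℤ} (hq : (q : A) = 0) {x : A} {pl : List ℤ}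
    (hx : x ^ pl.length + ev x pl = 0) (M : ℕ) : ∀ {v : List ℤ}, v.length = pl.length →
    ev x (iter q pl M v) = x ^ M * ev x v := by
  induction M with
  | zero => intro v _; simp [iter]
  | succ M ih =>
    intro v hv
    obtain ⟨h1, h2⟩ := step_spec hq hx hv
    rw [iter, ih h1, h2]
    ring

theorem map_ev {B : Type*} [CommRing B] (φ : A →+* B) (x : A) (l : List ℤ) :
    φ (ev x l) = ev (φ x) l := by
  induction l with
  | nil => simp [ev]
  | cons c t ih => rw [ev_cons, ev_cons, map_add, map_mul, map_pow, ih, map_intCast]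

end

/-- the list of `1` in a ring of rank `n` -/
def oneL (n : ℕ) : List ℤ := List.replicate (n - 1) 0 ++ [1]

theorem ev_replicate {A : Type*} [CommRing A] (x : A) (n : ℕ) : ev x (List.replicate n 0) = 0 := by
  induction n with
  | zero => simp [ev]
  | succ n ih => rw [List.replicate_succ, ev_cons, ih]; simp

theorem ev_oneL {A : Type*} [CommRing A] (x : A) (n : ℕ) : ev x (oneL n) = 1 := by
  rw [oneL, ev_append, ev_replicate]
  simp

/-- the congruence `X^M = 1` modulo `P` and `q` from the computation with lists -/
theorem per_of_list {P : ℤ[X]} {pl : List ℤ} (hP : P = X ^ pl.length + ev X pl) (hl : 1 ≤ pl.length)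
    {q M : ℕ} (h : iter q pl M (oneL pl.length) = oneL pl.length) : Per P q M := by
  set I : Ideal ℤ[X] := Ideal.span {P, C (q : ℤ)} with hI
  set φ := Ideal.Quotient.mk I with hφ
  have h1 : φ P = 0 := Ideal.Quotient.eq_zero_iff_mem.2 (Ideal.subset_span (by simp))
  have h2 : φ (C (q : ℤ)) = 0 := Ideal.Quotient.eq_zero_iff_mem.2 (Ideal.subset_span (by simp))
  have hq : ((q : ℤ) : ℤ[X] ⧸ I) = 0 := by
    rw [← h2]
    simp
  have hx : (φ X) ^ pl.length + ev (φ X) pl = 0 := by
    rw [← map_ev, ← map_pow, ← map_add, ← hP, h1]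
  have hone : (oneL pl.length).length = pl.length := by
    simp only [oneL, List.length_append, List.length_replicate, List.length_cons, List.length_nil]
    omega
  have h3 := iter_spec hq hx M hone
  rw [h, ev_oneL, mul_one, ← map_pow] at h3
  have h4 : φ (X ^ M - 1) = 0 := by rw [map_sub, ← h3, map_one, sub_self]
  have h5 : X ^ M - 1 ∈ I := Ideal.Quotient.eq_zero_iff_mem.1 h4
  obtain ⟨S, R, hSR⟩ := Ideal.mem_span_pair.1 h5
  exact ⟨S, R, by rw [← hSR]; ring⟩

end Pool.Agent.Zk47.WP
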