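import Pool.Agent.Zk47.WP.NoFac

/-!
# Rational sample points and the irreducibility of `P` from the real Weil polynomial
-/

set_option autoImplicit false

namespace Pool.Agent.Zk47.WP

open Polynomial Pool.Agent.R80.WF

/-- `N ^ k * DP k (n / N)` -/
def DZ (N n : ℤ) : ℕ → ℤ
  | 0 => 2
  | 1 => n
  | k + 2 => n * DZ N n (k + 1) - 2 * N ^ 2 * DZ N n k

/-- `N ^ g * HP g a (n / N)` -/
def HZ (g : ℕ) (a : ℕ → ℤ) (N n : ℤ) : ℤ :=
  ((List.range g).map fun i => a i * N ^ i * DZ N n (g - i)).sum + a g * N ^ g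

theorem DZ_eq {N : ℤ} (hN : (N : ℝ) ≠ 0) (n : ℤ) (k : ℕ) :
    ((DZ N n k : ℤ) : ℝ) = N ^ k * aeval ((n : ℝ) / N) (DP k) ∧
      ((DZ N n (k + 1) : ℤ) : ℝ) = N ^ (k + 1) * aeval ((n : ℝ) / N) (DP (k + 1)) := by
  induction k with
  | zero =>
    refine ⟨?_, ?_⟩
    · simp only [DZ, DP, pow_zero, one_mul, aeval_C]
      norm_num
    · simp only [DZ, DP, aeval_X, zero_add, pow_one]
      field_simp
  | succ k ih =>
    refine ⟨ih.2, ?_⟩
    rw [DP_succ, DZ]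
    push_cast
    rw [ih.1, ih.2, map_sub, map_mul, map_mul, aeval_X, aeval_C]
    simp only [algebraMap_int_eq, eq_intCast, Int.cast_ofNat]
    field_simp
    ring

theorem HZ_eq {N : ℤ} (hN : (N : ℝ) ≠ 0) (g : ℕ) (a : ℕ → ℤ) (n : ℤ) :
    ((HZ g a N n : ℤ) : ℝ) = N ^ g * aeval ((n : ℝ) / N) (HP g a) := by
  have hs : ((List.range g).map fun i => a i * N ^ i * DZ N n (g - i)).sum =
      ∑ i ∈ Finset.range g, a i * N ^ i * DZ N n (g - i) := rfl
  rw [HZ, hs, HP]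
  push_cast
  rw [map_add, map_sum, mul_add, Finset.mul_sum]
  congr 1
  · refine Finset.sum_congr rfl fun i hi => ?_
    have hi' : i < g := Finset.mem_range.1 hi
    rw [(DZ_eq hN n (g - i)).1, map_mul, aeval_C]
    have e : (N : ℝ) ^ g = N ^ i * N ^ (g - i) := by rw [← pow_add, Nat.add_sub_cancel' hi'.le]
    rw [e]
    simp only [algebraMap_int_eq, eq_intCast]
    ring
  · rw [aeval_C]
    simp only [algebraMap_int_eq, eq_intCast]
    ring

/-- location of the roots from integer sample points -/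
theorem root_of_ints {g : ℕ} {a : ℕ → ℤ} (hg : 1 ≤ g) (h0 : a 0 = 1) {N : ℤ} (hN : 0 < N)
    (t : ℕ → ℤ) (hlt : ∀ j < g, t j < t (j + 1)) (hb : ∀ j ≤ g, (t j) ^ 2 ≤ 8 * N ^ 2)
    (hs : ∀ j < g, HZ g a N (t j) * HZ g a N (t (j + 1)) < 0) (x : ℂ)
    (hx : aeval x (PP 2 g a) = 0) : ‖x‖ = Real.sqrt 2 := by
  have hN' : (0 : ℝ) < N := by exact_mod_cast hN
  refine root_of_samples hg h0 (fun j => (t j : ℝ) / N) ?_ ?_ ?_ x hx
  · intro j hj
    have : (t j : ℝ) < t (j + 1) := by exact_mod_cast hlt j hj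
    exact div_lt_div_of_pos_right this hN'
  · intro j hj
    have : (t j : ℝ) ^ 2 ≤ 8 * (N : ℝ) ^ 2 := by exact_mod_cast hb j hj
    rw [div_pow, div_le_iff₀ (by positivity)]
    exact this
  · intro j hj
    have h1 : ((HZ g a N (t j) * HZ g a N (t (j + 1)) : ℤ) : ℝ) < 0 := by exact_mod_cast hs j hj
    rw [Int.cast_mul, HZ_eq hN'.ne', HZ_eq hN'.ne'] at h1
    have h2 : (0 : ℝ) < N ^ g := by positivity
    by_contra hcon
    push Not at hcon
    have : 0 ≤ (N : ℝ) ^ g * aeval ((t j : ℝ) / N) (HP g a) *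
        (N ^ g * aeval ((t (j + 1) : ℝ) / N) (HP g a)) := by
      have : (N : ℝ) ^ g * aeval ((t j : ℝ) / N) (HP g a) *
        (N ^ g * aeval ((t (j + 1) : ℝ) / N) (HP g a)) = (N ^ g) ^ 2 *
          (aeval ((t j : ℝ) / N) (HP g a) * aeval ((t (j + 1) : ℝ) / N) (HP g a)) := by ring
      rw [this]
      positivity
    linarith

/-- irreducibility of `P` from that of the real Weil polynomial -/
theorem irr_of_HP {g : ℕ} {a : ℕ → ℤ} (hg : 3 ≤ g) (h0 : a 0 = 1) (hh : Irreducible (HP g a))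
    (hroot : ∀ x : ℂ, aeval x (PP 2 g a) = 0 → ‖x‖ = Real.sqrt 2) :
    Irreducible ((PP 2 g a).map (Int.castRingHom ℚ)) := by
  obtain ⟨hm, hd⟩ := HP_monic (by omega : 1 ≤ g) h0
  refine Y676.WP.irreducible_of_real2 (p := 2) Nat.prime_two (by omega) (monic_PP (by omega) h0)
    (natDegree_PP (by omega) h0) hm hd hh ?_ ?_ ?_
  · intro x x' hxx
    exact PP_HP a (by rw [hxx]; norm_num)
  · intro x hx hx2
    have hx2' : x * x = 2 := by rw [← sq, hx2]; norm_num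
    have hx0 : x ≠ 0 := by
      rintro rfl
      norm_num at hx2'
    rw [PP_HP a hx2'] at hx
    have h1 := (mul_eq_zero.1 hx).resolve_left (pow_ne_zero _ hx0)
    have hs : IsIntegral ℤ (x + x) := ⟨_, hm, h1⟩
    have h2 : minpoly ℤ (x + x) ∣ HP g a := minpoly.isIntegrallyClosed_dvd hs h1
    have h3 : minpoly ℤ (x + x) ∣ X ^ 2 - C 8 := by
      refine minpoly.isIntegrallyClosed_dvd hs ?_
      rw [map_sub, map_pow, aeval_X, aeval_C]
      simp only [algebraMap_int_eq, eq_intCast, Int.cast_ofNat]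
      linear_combination 4 * hx2'
    have hnu : ¬ IsUnit (minpoly ℤ (x + x)) := minpoly.not_isUnit ℤ _
    have h4 : HP g a ∣ minpoly ℤ (x + x) := by
      obtain ⟨s, hs'⟩ := h2
      rcases hh.isUnit_or_isUnit hs' with h | h
      · exact absurd h hnu
      · rw [hs']
        obtain ⟨u, rfl⟩ := h
        exact ⟨↑(u⁻¹), by rw [mul_assoc, Units.mul_inv, mul_one]⟩
    have h5 := natDegree_le_of_dvd (h4.trans h3) (X_pow_sub_C_ne_zero (by norm_num) _)
    rw [hd, natDegree_X_pow_sub_C] at h5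
    omega
  · intro x hx
    have := hroot x hx
    rw [this]
    norm_num

/-- `a` from a list -/
def ofL (l : List ℤ) (i : ℕ) : ℤ := l.getD i 0

/-- the criterion with 3-Eisenstein, with integer sample points -/
theorem good2_ints {g f : ℕ} {a : ℕ → ℤ} {N : ℤ} {t : ℕ → ℤ} (hg : 2 ≤ g) (hf : f ≤ g)
    (h : a 0 = 1 ∧ (∀ i ≤ g, (a i - c3 g i) % 3 = 0) ∧
      (∑ i ∈ Finset.range g, a i * (1 + 2 ^ (g - i)) + a g) % 9 = 6 ∧
      (∀ i ≤ g, f < i → a i % 2 = 0) ∧ a f % 2 = 1 ∧ (∃ i < g, a i ≠ 0 ∧ a (i + 1) ≠ 0) ∧ 0 < N ∧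
      (∀ j < g, t j < t (j + 1)) ∧ (∀ j ≤ g, (t j) ^ 2 ≤ 8 * N ^ 2) ∧
      (∀ j < g, HZ g a N (t j) * HZ g a N (t (j + 1)) < 0)) : Good 2 g f := by
  obtain ⟨h1, h2, h3, h4, h5, h6, h7, h8, h9, h10⟩ := h
  exact good2 hg hf h1 h2 h3 (fun i hi hi' => h4 i hi' hi) h5 h6
    (root_of_ints (by omega) h1 h7 t h8 h9 h10)

end Pool.Agent.Zk47.WP
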