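import Pool.Agent.Zk47.WP.Samp

/-!
# The pairs `(g, f)` with `3 ≤ g ≤ 6`, `2 ≤ f ≤ g` for `p = 2`
-/

set_option autoImplicit false

namespace Pool.Agent.Zk47.WP

open Polynomial Pool.Agent.R80.WF

theorem good_3_3 : Good 2 3 3 :=
  good2_ints (a := ofL [1, 3, 6, 9]) (N := 5) (t := ofL [-14, -10, 0, 14]) (by norm_num) (by norm_num)
    (by decide +kernel)

theorem good_5_3 : Good 2 5 3 :=
  good2_ints (a := ofL [1, 0, 1, 3, 4, 0]) (N := 5) (t := ofL [-14, -11, -4, 5, 10, 14]) (by norm_num) (by norm_num)
    (by decide +kernel)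

theorem good_5_4 : Good 2 5 4 :=
  good2_ints (a := ofL [1, -3, 4, -3, 1, 0]) (N := 5) (t := ofL [-14, -9, 0, 8, 13, 14]) (by norm_num) (by norm_num)
    (by decide +kernel)

theorem good_5_5 : Good 2 5 5 :=
  good2_ints (a := ofL [1, 0, 1, 0, -2, -3]) (N := 5) (t := ofL [-14, -11, -3, 3, 11, 14]) (by norm_num) (by norm_num)
    (by decide +kernel)

theorem good_6_3 : Good 2 6 3 :=
  good2_ints (a := ofL [1, -3, 3, -3, 6, -6, 4]) (N := 50) (t := ofL [-141, -109, -46, 34, 108, 137, 141]) (by norm_num) (by norm_num)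
    (by decide +kernel)

theorem good_6_5 : Good 2 6 5 :=
  good2_ints (a := ofL [1, -3, 6, -9, 12, -15, 22]) (N := 5) (t := ofL [-14, -10, -3, 4, 9, 13, 14]) (by norm_num) (by norm_num)
    (by decide +kernel)

theorem good_6_6 : Good 2 6 6 :=
  good2_ints (a := ofL [1, -3, 6, -12, 21, -33, 49]) (N := 5) (t := ofL [-14, -9, -4, 3, 9, 13, 14]) (by norm_num) (by norm_num)
    (by decide +kernel)

theorem good_3_2 : Good 2 3 2 := by
  have hP : PP 2 3 (ofL [1, -2, 1, 0]) = X ^ (List.length [-2, 1, 0, 2, -8, 8]) +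
      ev X [-2, 1, 0, 2, -8, 8] := by
    simp only [PP, ofL, ev, Finset.sum_range_succ, Finset.sum_range_zero, List.getD_cons_zero,
      List.getD_cons_succ, List.length_cons, List.length_nil]
    norm_num
    ring
  have hH : HP 3 (ofL [1, -2, 1, 0]) = evl X [8, -5, -2, 1] := by
    simp only [HP, DP, ofL, evl, Finset.sum_range_succ, Finset.sum_range_zero,
      List.getD_cons_zero, List.getD_cons_succ]
    norm_num [DP]
    ring
  have h0 : ofL [1, -2, 1, 0] 0 = 1 := rfl
  obtain ⟨hm, hd⟩ := HP_monic (g := 3) (by norm_num) h0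
  have hroot := root_of_ints (g := 3) (a := ofL [1, -2, 1, 0]) (by norm_num) h0
    (N := 5) (by norm_num) (ofL [-14, -4, 11, 14]) (by decide +kernel) (by decide +kernel)
    (by decide +kernel)
  have hirr : Irreducible (HP 3 (ofL [1, -2, 1, 0])) := by
    refine irreducible_of_types hm (by rw [hd]; norm_num) ?_
    intro k hk1 hk2 G hG hGd
    rw [hd] at hk2
    norm_num at hk2
    obtain rfl : k = 1 := by omega
    have : Fact (Nat.Prime 3) := ⟨by norm_num⟩
    exact no_factor (q := 3) hH (by norm_num) (by decide +kernel) (by decide +kernel) hG hGd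
  refine good_special (q₁ := 3) (q₂ := 5) (M₁ := 26) (M₂ := 24) (k := 1) (by norm_num)
    (by norm_num) h0 (irr_of_HP (by norm_num) h0 hirr hroot) ?_ rfl hroot (by norm_num)
    (by norm_num) (per_of_list hP (by norm_num) (by decide +kernel))
    (per_of_list hP (by norm_num) (by decide +kernel)) (by decide +kernel) (by norm_num) ?_
  · intro i h1 h2
    interval_cases i <;> rfl
  · rw [coeff_PP]
    norm_num [ofL]

theorem good_4_2 : Good 2 4 2 := by
  have hP : PP 2 4 (ofL [1, -2, 1, 4, -10]) = X ^ (List.length [-2, 1, 4, -10, 8, 4, -16, 16]) +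
      ev X [-2, 1, 4, -10, 8, 4, -16, 16] := by
    simp only [PP, ofL, ev, Finset.sum_range_succ, Finset.sum_range_zero, List.getD_cons_zero,
      List.getD_cons_succ, List.length_cons, List.length_nil]
    norm_num
    ring
  have hH : HP 4 (ofL [1, -2, 1, 4, -10]) = evl X [-6, 16, -7, -2, 1] := by
    simp only [HP, DP, ofL, evl, Finset.sum_range_succ, Finset.sum_range_zero,
      List.getD_cons_zero, List.getD_cons_succ]
    norm_num [DP]
    ring
  have h0 : ofL [1, -2, 1, 4, -10] 0 = 1 := rfl
  obtain ⟨hm, hd⟩ := HP_monic (g := 4) (by norm_num) h0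
  have hroot := root_of_ints (g := 4) (a := ofL [1, -2, 1, 4, -10]) (by norm_num) h0
    (N := 50) (by norm_num) (ofL [-141, -88, 50, 113, 141]) (by decide +kernel) (by decide +kernel)
    (by decide +kernel)
  have hirr : Irreducible (HP 4 (ofL [1, -2, 1, 4, -10])) := by
    refine irreducible_of_types hm (by rw [hd]; norm_num) ?_
    intro k hk1 hk2 G hG hGd
    rw [hd] at hk2
    norm_num at hk2
    have hk : k = 1 ∨ k = 2 := by omega
    rcases hk with rfl | rfl
    · have : Fact (Nat.Prime 5) := ⟨by norm_num⟩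
      exact no_factor (q := 5) hH (by norm_num) (by decide +kernel) (by decide +kernel) hG hGd
    · have : Fact (Nat.Prime 3) := ⟨by norm_num⟩
      exact no_factor (q := 3) hH (by norm_num) (by decide +kernel) (by decide +kernel) hG hGd
  refine good_special (q₁ := 3) (q₂ := 7) (M₁ := 26) (M₂ := 120) (k := 1) (by norm_num)
    (by norm_num) h0 (irr_of_HP (by norm_num) h0 hirr hroot) ?_ rfl hroot (by norm_num)
    (by norm_num) (per_of_list hP (by norm_num) (by decide +kernel))
    (per_of_list hP (by norm_num) (by decide +kernel)) (by decide +kernel) (by norm_num) ?_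
  · intro i h1 h2
    interval_cases i <;> rfl
  · rw [coeff_PP]
    norm_num [ofL]

theorem good_4_3 : Good 2 4 3 := by
  have hP : PP 2 4 (ofL [1, -1, 1, -1, 2]) = X ^ (List.length [-1, 1, -1, 2, -2, 4, -8, 16]) +
      ev X [-1, 1, -1, 2, -2, 4, -8, 16] := by
    simp only [PP, ofL, ev, Finset.sum_range_succ, Finset.sum_range_zero, List.getD_cons_zero,
      List.getD_cons_succ, List.length_cons, List.length_nil]
    norm_num
    ring
  have hH : HP 4 (ofL [1, -1, 1, -1, 2]) = evl X [6, 5, -7, -1, 1] := by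
    simp only [HP, DP, ofL, evl, Finset.sum_range_succ, Finset.sum_range_zero,
      List.getD_cons_zero, List.getD_cons_succ]
    norm_num [DP]
    ring
  have h0 : ofL [1, -1, 1, -1, 2] 0 = 1 := rfl
  obtain ⟨hm, hd⟩ := HP_monic (g := 4) (by norm_num) h0
  have hroot := root_of_ints (g := 4) (a := ofL [1, -1, 1, -1, 2]) (by norm_num) h0
    (N := 5) (by norm_num) (ofL [-14, -9, 2, 11, 14]) (by decide +kernel) (by decide +kernel)
    (by decide +kernel)
  have hirr : Irreducible (HP 4 (ofL [1, -1, 1, -1, 2])) := by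
    refine irreducible_of_types hm (by rw [hd]; norm_num) ?_
    intro k hk1 hk2 G hG hGd
    rw [hd] at hk2
    norm_num at hk2
    have hk : k = 1 ∨ k = 2 := by omega
    rcases hk with rfl | rfl
    · have : Fact (Nat.Prime 5) := ⟨by norm_num⟩
      exact no_factor (q := 5) hH (by norm_num) (by decide +kernel) (by decide +kernel) hG hGd
    · have : Fact (Nat.Prime 3) := ⟨by norm_num⟩
      exact no_factor (q := 3) hH (by norm_num) (by decide +kernel) (by decide +kernel) hG hGd
  refine good_special (q₁ := 3) (q₂ := 11) (M₁ := 26) (M₂ := 120) (k := 1) (by norm_num)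
    (by norm_num) h0 (irr_of_HP (by norm_num) h0 hirr hroot) ?_ rfl hroot (by norm_num)
    (by norm_num) (per_of_list hP (by norm_num) (by decide +kernel))
    (per_of_list hP (by norm_num) (by decide +kernel)) (by decide +kernel) (by norm_num) ?_
  · intro i h1 h2
    interval_cases i <;> rfl
  · rw [coeff_PP]
    norm_num [ofL]

theorem good_4_4 : Good 2 4 4 := by
  have hP : PP 2 4 (ofL [1, -2, 3, -1, 1]) = X ^ (List.length [-2, 3, -1, 1, -2, 12, -16, 16]) +
      ev X [-2, 3, -1, 1, -2, 12, -16, 16] := by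
    simp only [PP, ofL, ev, Finset.sum_range_succ, Finset.sum_range_zero, List.getD_cons_zero,
      List.getD_cons_succ, List.length_cons, List.length_nil]
    norm_num
    ring
  have hH : HP 4 (ofL [1, -2, 3, -1, 1]) = evl X [-3, 11, -5, -2, 1] := by
    simp only [HP, DP, ofL, evl, Finset.sum_range_succ, Finset.sum_range_zero,
      List.getD_cons_zero, List.getD_cons_succ]
    norm_num [DP]
    ring
  have h0 : ofL [1, -2, 3, -1, 1] 0 = 1 := rfl
  obtain ⟨hm, hd⟩ := HP_monic (g := 4) (by norm_num) h0
  have hroot := root_of_ints (g := 4) (a := ofL [1, -2, 3, -1, 1]) (by norm_num) h0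
    (N := 2) (by norm_num) (ofL [-5, -3, 2, 4, 5]) (by decide +kernel) (by decide +kernel)
    (by decide +kernel)
  have hirr : Irreducible (HP 4 (ofL [1, -2, 3, -1, 1])) := by
    refine irreducible_of_types hm (by rw [hd]; norm_num) ?_
    intro k hk1 hk2 G hG hGd
    rw [hd] at hk2
    norm_num at hk2
    have hk : k = 1 ∨ k = 2 := by omega
    rcases hk with rfl | rfl
    · have : Fact (Nat.Prime 5) := ⟨by norm_num⟩
      exact no_factor (q := 5) hH (by norm_num) (by decide +kernel) (by decide +kernel) hG hGd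
    · have : Fact (Nat.Prime 2) := ⟨by norm_num⟩
      exact no_factor (q := 2) hH (by norm_num) (by decide +kernel) (by decide +kernel) hG hGd
  refine good_special (q₁ := 3) (q₂ := 7) (M₁ := 26) (M₂ := 120) (k := 1) (by norm_num)
    (by norm_num) h0 (irr_of_HP (by norm_num) h0 hirr hroot) ?_ rfl hroot (by norm_num)
    (by norm_num) (per_of_list hP (by norm_num) (by decide +kernel))
    (per_of_list hP (by norm_num) (by decide +kernel)) (by decide +kernel) (by norm_num) ?_
  · intro i h1 h2
    interval_cases i <;> rfl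
  · rw [coeff_PP]
    norm_num [ofL]

theorem good_5_2 : Good 2 5 2 := by
  have hP : PP 2 5 (ofL [1, -1, 1, -2, 2, -2]) = X ^ (List.length [-1, 1, -2, 2, -2, 4, -8, 8, -16, 32]) +
      ev X [-1, 1, -2, 2, -2, 4, -8, 8, -16, 32] := by
    simp only [PP, ofL, ev, Finset.sum_range_succ, Finset.sum_range_zero, List.getD_cons_zero,
      List.getD_cons_succ, List.length_cons, List.length_nil]
    norm_num
    ring
  have hH : HP 5 (ofL [1, -1, 1, -2, 2, -2]) = evl X [-2, 16, 6, -9, -1, 1] := by
    simp only [HP, DP, ofL, evl, Finset.sum_range_succ, Finset.sum_range_zero,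
      List.getD_cons_zero, List.getD_cons_succ]
    norm_num [DP]
    ring
  have h0 : ofL [1, -1, 1, -2, 2, -2] 0 = 1 := rfl
  obtain ⟨hm, hd⟩ := HP_monic (g := 5) (by norm_num) h0
  have hroot := root_of_ints (g := 5) (a := ofL [1, -1, 1, -2, 2, -2]) (by norm_num) h0
    (N := 5) (by norm_num) (ofL [-14, -10, -3, 5, 12, 14]) (by decide +kernel) (by decide +kernel)
    (by decide +kernel)
  have hirr : Irreducible (HP 5 (ofL [1, -1, 1, -2, 2, -2])) := by
    refine irreducible_of_types hm (by rw [hd]; norm_num) ?_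
    intro k hk1 hk2 G hG hGd
    rw [hd] at hk2
    norm_num at hk2
    have hk : k = 1 ∨ k = 2 := by omega
    rcases hk with rfl | rfl
    · have : Fact (Nat.Prime 3) := ⟨by norm_num⟩
      exact no_factor (q := 3) hH (by norm_num) (by decide +kernel) (by decide +kernel) hG hGd
    · have : Fact (Nat.Prime 3) := ⟨by norm_num⟩
      exact no_factor (q := 3) hH (by norm_num) (by decide +kernel) (by decide +kernel) hG hGd
  refine good_special (q₁ := 3) (q₂ := 5) (M₁ := 22) (M₂ := 312) (k := 1) (by norm_num)
    (by norm_num) h0 (irr_of_HP (by norm_num) h0 hirr hroot) ?_ rfl hroot (by norm_num)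
    (by norm_num) (per_of_list hP (by norm_num) (by decide +kernel))
    (per_of_list hP (by norm_num) (by decide +kernel)) (by decide +kernel) (by norm_num) ?_
  · intro i h1 h2
    interval_cases i <;> rfl
  · rw [coeff_PP]
    norm_num [ofL]

theorem good_6_2 : Good 2 6 2 := by
  have hP : PP 2 6 (ofL [1, -5, 11, -12, -2, 32, -62]) = X ^ (List.length [-5, 11, -12, -2, 32, -62, 64, -8, -96, 176, -160, 64]) +
      ev X [-5, 11, -12, -2, 32, -62, 64, -8, -96, 176, -160, 64] := by
    simp only [PP, ofL, ev, Finset.sum_range_succ, Finset.sum_range_zero, List.getD_cons_zero,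
      List.getD_cons_succ, List.length_cons, List.length_nil]
    norm_num
    ring
  have hH : HP 6 (ofL [1, -5, 11, -12, -2, 32, -62]) = evl X [18, 4, -54, 38, -1, -5, 1] := by
    simp only [HP, DP, ofL, evl, Finset.sum_range_succ, Finset.sum_range_zero,
      List.getD_cons_zero, List.getD_cons_succ]
    norm_num [DP]
    ring
  have h0 : ofL [1, -5, 11, -12, -2, 32, -62] 0 = 1 := rfl
  obtain ⟨hm, hd⟩ := HP_monic (g := 6) (by norm_num) h0
  have hroot := root_of_ints (g := 6) (a := ofL [1, -5, 11, -12, -2, 32, -62]) (by norm_num) h0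
    (N := 50) (by norm_num) (ofL [-141, -107, 2, 68, 108, 138, 141]) (by decide +kernel) (by decide +kernel)
    (by decide +kernel)
  have hirr : Irreducible (HP 6 (ofL [1, -5, 11, -12, -2, 32, -62])) := by
    refine irreducible_of_types hm (by rw [hd]; norm_num) ?_
    intro k hk1 hk2 G hG hGd
    rw [hd] at hk2
    norm_num at hk2
    have hk : k = 1 ∨ k = 2 ∨ k = 3 := by omega
    rcases hk with rfl | rfl | rfl
    · have : Fact (Nat.Prime 5) := ⟨by norm_num⟩
      exact no_factor (q := 5) hH (by norm_num) (by decide +kernel) (by decide +kernel) hG hGd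
    · have : Fact (Nat.Prime 3) := ⟨by norm_num⟩
      exact no_factor (q := 3) hH (by norm_num) (by decide +kernel) (by decide +kernel) hG hGd
    · have : Fact (Nat.Prime 3) := ⟨by norm_num⟩
      exact no_factor (q := 3) hH (by norm_num) (by decide +kernel) (by decide +kernel) hG hGd
  refine good_special (q₁ := 3) (q₂ := 11) (M₁ := 242) (M₂ := 190) (k := 1) (by norm_num)
    (by norm_num) h0 (irr_of_HP (by norm_num) h0 hirr hroot) ?_ rfl hroot (by norm_num)
    (by norm_num) (per_of_list hP (by norm_num) (by decide +kernel))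
    (per_of_list hP (by norm_num) (by decide +kernel)) (by decide +kernel) (by norm_num) ?_
  · intro i h1 h2
    interval_cases i <;> rfl
  · rw [coeff_PP]
    norm_num [ofL]

theorem good_6_4 : Good 2 6 4 := by
  have hP : PP 2 6 (ofL [1, -4, 7, -8, 9, -16, 28]) = X ^ (List.length [-4, 7, -8, 9, -16, 28, -32, 36, -64, 112, -128, 64]) +
      ev X [-4, 7, -8, 9, -16, 28, -32, 36, -64, 112, -128, 64] := by
    simp only [PP, ofL, ev, Finset.sum_range_succ, Finset.sum_range_zero, List.getD_cons_zero,
      List.getD_cons_succ, List.length_cons, List.length_nil]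
    norm_num
    ring
  have hH : HP 6 (ofL [1, -4, 7, -8, 9, -16, 28]) = evl X [32, -48, -11, 32, -5, -4, 1] := by
    simp only [HP, DP, ofL, evl, Finset.sum_range_succ, Finset.sum_range_zero,
      List.getD_cons_zero, List.getD_cons_succ]
    norm_num [DP]
    ring
  have h0 : ofL [1, -4, 7, -8, 9, -16, 28] 0 = 1 := rfl
  obtain ⟨hm, hd⟩ := HP_monic (g := 6) (by norm_num) h0
  have hroot := root_of_ints (g := 6) (a := ofL [1, -4, 7, -8, 9, -16, 28]) (by norm_num) h0
    (N := 50) (by norm_num) (ofL [-141, -103, -30, 57, 105, 137, 141]) (by decide +kernel) (by decide +kernel)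
    (by decide +kernel)
  have hirr : Irreducible (HP 6 (ofL [1, -4, 7, -8, 9, -16, 28])) := by
    refine irreducible_of_types hm (by rw [hd]; norm_num) ?_
    intro k hk1 hk2 G hG hGd
    rw [hd] at hk2
    norm_num at hk2
    have hk : k = 1 ∨ k = 2 ∨ k = 3 := by omega
    rcases hk with rfl | rfl | rfl
    · have : Fact (Nat.Prime 7) := ⟨by norm_num⟩
      exact no_factor (q := 7) hH (by norm_num) (by decide +kernel) (by decide +kernel) hG hGd
    · have : Fact (Nat.Prime 3) := ⟨by norm_num⟩
      exact no_factor (q := 3) hH (by norm_num) (by decide +kernel) (by decide +kernel) hG hGd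
    · have : Fact (Nat.Prime 3) := ⟨by norm_num⟩
      exact no_factor (q := 3) hH (by norm_num) (by decide +kernel) (by decide +kernel) hG hGd
  refine good_special (q₁ := 3) (q₂ := 7) (M₁ := 488) (M₂ := 258) (k := 1) (by norm_num)
    (by norm_num) h0 (irr_of_HP (by norm_num) h0 hirr hroot) ?_ rfl hroot (by norm_num)
    (by norm_num) (per_of_list hP (by norm_num) (by decide +kernel))
    (per_of_list hP (by norm_num) (by decide +kernel)) (by decide +kernel) (by norm_num) ?_
  · intro i h1 h2
    interval_cases i <;> rfl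
  · rw [coeff_PP]
    norm_num [ofL]

end Pool.Agent.Zk47.WP
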