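import Pool.Agent.Zk47.WP.Good
import Pool.Agent.R80.WF.X33

/-!
# Special small cases: the ratios of the conjugates from two primes
-/

set_option autoImplicit false

namespace Pool.Agent.Zk47.WP

open Polynomial Pool.Agent.R80.WF

/-- a root of unity congruent to one modulo `q` -/
theorem unit_one_q {q : ℕ} (hq : 3 ≤ q) (ξ w : ℂ) (k : ℕ) (hk : 1 ≤ k) (hξ : ξ ^ k = 1)
    (hw : IsIntegral ℤ w) (h : ξ - 1 = q * w) : ξ = 1 := by
  have hfin : IsOfFinOrder ξ := isOfFinOrder_iff_pow_eq_one.2 ⟨k, hk, hξ⟩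
  have hr0 : 0 < orderOf ξ := hfin.orderOf_pos
  obtain ⟨r, hr⟩ : ∃ r, orderOf ξ = r + 1 := ⟨orderOf ξ - 1, by omega⟩
  have hprim : IsPrimitiveRoot ξ (r + 1) := hr ▸ IsPrimitiveRoot.orderOf ξ
  have hprod := hprim.prod_one_sub_pow_eq_order
  have hqi : IsIntegral ℤ (q : ℂ) := by
    have := isIntegral_algebraMap (R := ℤ) (A := ℂ) (x := (q : ℤ))
    simpa using this
  have hξi : IsIntegral ℤ ξ := by
    have : ξ = 1 + q * w := by linear_combination h
    rw [this]
    exact isIntegral_one.add (hqi.mul hw)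
  have hk' : ∀ j : ℕ, ∃ v : ℂ, IsIntegral ℤ v ∧ 1 - ξ ^ (j + 1) = q * v := by
    intro j
    refine ⟨-w * ∑ i ∈ Finset.range (j + 1), ξ ^ i, ?_, ?_⟩
    · exact hw.neg.mul (IsIntegral.sum _ fun i _ => hξi.pow i)
    · have h1 := geom_sum_mul ξ (j + 1)
      linear_combination h1 - (∑ i ∈ Finset.range (j + 1), ξ ^ i) * h
  choose v hv1 hv2 using hk'
  have hprod2 : (q : ℂ) ^ r * ∏ j ∈ Finset.range r, v j = r + 1 := by
    rw [← hprod]
    simp only [hv2]
    rw [Finset.prod_mul_distrib, Finset.prod_const, Finset.card_range]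
  have hint : IsIntegral ℤ (∏ j ∈ Finset.range r, v j) := IsIntegral.prod _ fun j _ => hv1 j
  have hqne : (q : ℂ) ≠ 0 := by
    have : q ≠ 0 := by omega
    exact_mod_cast this
  have hval : ∏ j ∈ Finset.range r, v j = algebraMap ℚ ℂ (((r : ℚ) + 1) / (q : ℚ) ^ r) := by
    have h2 : (q : ℂ) ^ r ≠ 0 := pow_ne_zero _ hqne
    rw [eq_ratCast]
    push_cast
    rw [eq_div_iff h2, ← hprod2]
    ring
  rw [hval] at hint
  have hint2 : IsIntegral ℤ (((r : ℚ) + 1) / (q : ℚ) ^ r) :=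
    (isIntegral_algebraMap_iff (algebraMap ℚ ℂ).injective).1 hint
  obtain ⟨z, hz⟩ := IsIntegrallyClosed.isIntegral_iff.1 hint2
  have hqQ : (q : ℚ) ^ r ≠ 0 := by
    have : q ≠ 0 := by omega
    exact pow_ne_zero _ (by exact_mod_cast this)
  have hz' : (r : ℚ) + 1 = z * (q : ℚ) ^ r := by
    have : (z : ℚ) = ((r : ℚ) + 1) / (q : ℚ) ^ r := hz
    rw [this]; field_simp
  have hz'' : (r : ℤ) + 1 = z * (q : ℤ) ^ r := by exact_mod_cast hz'
  have hq0 : (0 : ℤ) < (q : ℤ) ^ r := by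
    have : (0 : ℤ) < q := by omega
    positivity
  have hzpos : 1 ≤ z := by
    by_contra hcon
    push Not at hcon
    have : z ≤ 0 := by omega
    nlinarith
  have hle : (q : ℤ) ^ r ≤ r + 1 := by
    rw [hz'']
    nlinarith
  have hle3 : (3 : ℤ) ^ r ≤ r + 1 := by
    refine le_trans ?_ hle
    have : (3 : ℤ) ≤ q := by exact_mod_cast hq
    exact pow_le_pow_left₀ (by norm_num) this r
  have hr1 : r = 0 := by
    by_contra hcon
    have h4 : ∀ m : ℕ, (m : ℤ) + 1 + 1 < 3 ^ (m + 1) := by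
      intro m
      induction m with
      | zero => norm_num
      | succ m ih =>
        rw [pow_succ]
        push_cast
        linarith
    have h5 := h4 (r - 1)
    have h6 : r - 1 + 1 = r := by omega
    rw [h6] at h5
    have h7 : ((r - 1 : ℕ) : ℤ) = (r : ℤ) - 1 := by omega
    rw [h7] at h5
    linarith
  rw [hr1, zero_add] at hr
  exact orderOf_eq_one_iff.1 hr

/-- the congruence `X^M = 1` modulo `P` and `q` -/
def Per (P : ℤ[X]) (q : ℕ) (M : ℕ) : Prop := ∃ S R : ℤ[X], X ^ M - 1 = P * S + C (q : ℤ) * R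

theorem conj_pow_q {q : ℕ} (hq : 3 ≤ q) {P : ℤ[X]} (hPm : P.Monic) {M : ℕ} (hM : Per P q M)
    {x y : ℂ} (hx : aeval x P = 0) (hy : aeval y P = 0) (hx0 : x ≠ 0) {n : ℕ} (hn : 1 ≤ n)
    (hxy : y ^ n = x ^ n) : (y / x) ^ M = 1 := by
  obtain ⟨S, R, hR⟩ := hM
  have hxi : IsIntegral ℤ x := ⟨P, hPm, hx⟩
  have hyi : IsIntegral ℤ y := ⟨P, hPm, hy⟩
  have key : ∀ z : ℂ, aeval z P = 0 → z ^ M - 1 = q * aeval z R := by
    intro z hz
    have h1 := congrArg (aeval z) hR
    simp only [map_add, map_sub, map_mul, map_pow, aeval_X, map_one, hz, zero_mul, zero_add,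
      aeval_C] at h1
    rw [h1]
    simp
  have hint : ∀ z : ℂ, IsIntegral ℤ z → IsIntegral ℤ (aeval z R) := by
    intro z hz
    rw [aeval_eq_sum_range]
    exact IsIntegral.sum _ fun i _ => (hz.pow i).smul _
  set ξ : ℂ := (y / x) ^ M with hξ
  have hx' : x ^ M ≠ 0 := pow_ne_zero _ hx0
  have h1 : ξ * x ^ M = y ^ M := by
    rw [hξ, div_pow]; field_simp
  have h2 : ξ ^ n = 1 := by
    rw [hξ, ← pow_mul, mul_comm, pow_mul, div_pow, hxy, div_self (pow_ne_zero _ hx0), one_pow]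
  have hξi : IsIntegral ℤ ξ := by
    refine ⟨X ^ n - 1, monic_X_pow_sub_C 1 (by omega), ?_⟩
    simp [h2]
  exact unit_one_q hq ξ (aeval y R - ξ * aeval x R) n hn h2
    ((hint y hyi).sub (hξi.mul (hint x hxi))) (by
      linear_combination h1 + key y hy - ξ * key x hx)

theorem neg_root {P : ℤ[X]} {N : ℕ} (hPm : P.Monic) (hd : P.natDegree = 2 * N)
    (hirr : Irreducible (P.map (Int.castRingHom ℚ))) {x : ℂ} (hx : aeval x P = 0)
    (hx' : aeval (-x) P = 0) (k : ℕ) (hk : k % 2 = 1) : P.coeff k = 0 := by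
  have hmin : P.map (Int.castRingHom ℚ) = minpoly ℚ x :=
    minpoly.eq_of_irreducible_of_monic hirr (by
      rw [← hx, aeval_def, aeval_def, eval₂_map]
      congr 1) (hPm.map _)
  set Q := (P.map (Int.castRingHom ℚ)) with hQ
  have hQm : Q.Monic := hPm.map _
  have hQd : Q.natDegree = 2 * N := by rw [hQ, hPm.natDegree_map, hd]
  have h1 : aeval x (Q.comp (-X)) = 0 := by
    rw [aeval_comp, map_neg, aeval_X]
    rw [← hx', hQ, aeval_def, aeval_def, eval₂_map]
    congr 1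
  have hdvd : Q ∣ Q.comp (-X) := by
    rw [hmin] at h1 ⊢
    exact minpoly.dvd _ _ h1
  have hlc : (Q.comp (-X)).Monic := by
    rw [Monic, leadingCoeff_comp (by simp), hQm.leadingCoeff, leadingCoeff_neg, leadingCoeff_X,
      hQd, pow_mul]
    simp
  have heq : Q.comp (-X) = Q := by
    refine eq_of_monic_of_dvd_of_natDegree_le hQm hlc hdvd ?_
    rw [natDegree_comp]
    simp
  have h2 := congrArg (fun G => G.coeff k) heq
  simp only [coeff_comp_neg_X'] at h2
  have hk' : (-1 : ℚ) ^ k = -1 := Odd.neg_one_pow (Nat.odd_iff.2 hk)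
  rw [hk'] at h2
  have h3 : Q.coeff k = 0 := by linarith
  have h4 : Q.coeff k = ((P.coeff k : ℤ) : ℚ) := by
    rw [hQ, coeff_map]
    rfl
  rw [h4] at h3
  exact_mod_cast h3

/-- the criterion for the special cases -/
theorem good_special {g f : ℕ} {a : ℕ → ℤ} (hg : 1 ≤ g) (hf : f ≤ g) (ha0 : a 0 = 1)
    (hirr : Irreducible ((PP 2 g a).map (Int.castRingHom ℚ)))
    (hdiv : ∀ i, f < i → i ≤ g → a i % 2 = 0) (hnd : a f % 2 = 1)
    (hroot : ∀ x : ℂ, aeval x (PP 2 g a) = 0 → ‖x‖ = Real.sqrt 2)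
    {q₁ q₂ M₁ M₂ : ℕ} (hq₁ : 3 ≤ q₁) (hq₂ : 3 ≤ q₂) (h₁ : Per (PP 2 g a) q₁ M₁)
    (h₂ : Per (PP 2 g a) q₂ M₂) (hM : Nat.gcd M₁ M₂ = 2) {k : ℕ} (hk : k % 2 = 1)
    (hck : (PP 2 g a).coeff k ≠ 0) : Good 2 g f := by
  set P := PP 2 g a with hP
  have hm : P.Monic := monic_PP hg ha0
  have hd : P.natDegree = 2 * g := natDegree_PP hg ha0
  refine ⟨P, hm, hd, hirr, ?_, ?_, ?_, ?_⟩
  · intro x hx
    have := hroot x hx
    rw [this]
    norm_num
  · intro i hi
    rw [hP, coeff_PP]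
    split_ifs with k1 k2 k4
    · exact Dvd.dvd.mul_right (dvd_pow_self _ (by omega)) _
    · have := hdiv g (by omega) le_rfl
      exact Int.dvd_of_emod_eq_zero this
    · have := hdiv (2 * g - i) (by omega) (by omega)
      exact Int.dvd_of_emod_eq_zero this
    · exact dvd_zero _
  · rw [hP, coeff_PP]
    have hcast : ((2 : ℕ) : ℤ) = 2 := rfl
    split_ifs with k1 k2 k4
    · omega
    · have : f = g := by omega
      rw [← this, hcast]
      omega
    · have : 2 * g - (2 * g - f) = f := by omega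
      rw [this, hcast]
      omega
    · omega
  · intro x hx n hn
    refine X33aux.adjoin_pow_eq hm ?_ hx hn
    intro y z hy hz m hm1 hyz
    have hy0 : y ≠ 0 := by
      rintro rfl
      have := hroot 0 hy
      rw [norm_zero] at this
      have h2 : (0 : ℝ) < Real.sqrt 2 := by positivity
      linarith
    have e1 := conj_pow_q hq₁ hm h₁ hy hz hy0 hm1 hyz.symm
    have e2 := conj_pow_q hq₂ hm h₂ hy hz hy0 hm1 hyz.symm
    have e3 : (z / y) ^ 2 = 1 := by
      rw [← orderOf_dvd_iff_pow_eq_one, ← hM]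
      exact Nat.dvd_gcd (orderOf_dvd_iff_pow_eq_one.2 e1) (orderOf_dvd_iff_pow_eq_one.2 e2)
    rw [div_pow, div_eq_one_iff_eq (pow_ne_zero _ hy0)] at e3
    rcases sq_eq_sq_iff_eq_or_eq_neg.1 e3 with h | h
    · exact h.symm
    · exfalso
      rw [h] at hz
      exact hck (neg_root hm hd hirr hy hz k hk)

end Pool.Agent.Zk47.WP
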